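import Pool.Agent.L0h4.TE.Cond
import Pool.Agent.L0h4.TC.Fin
import Pool.Agent.L0h23.EV.Tor

/-!
# The algebraic converse for `D ≡ 2, 3 mod 4`
-/

set_option autoImplicit false
set_option linter.unusedSectionVars false

namespace Pool.Agent.L0h4.TE

open Pool.Agent.Y698 Pool.Agent.Y698.SG Pool.Agent.L0h4.TW Pool.Agent.L0h4.TC
open Pool.Agent.W192.HK
open NumberField IsDedekindDomain IsCyclotomicExtension.Rat WithZero WeierstrassCurve
open Pool.Agent.H921R2.TatePole Pool.Agent.H82R3.EK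
open Pool.Agent.TH841.NF.D (Sha)
open Pool.Agent.Y700 (VR)
open Pool.Agent.Y698.SG.Cv (WF)
open Pool.Agent.L0h23.EV (WX vr_WX WX_ne)
open Pool.Agent.Y279.SG (nR_int dec cXY_cj nR_dvd)
open Pool.Agent.L0h23.ED (lam lab S_R2 kn kl kb k7 Sys3 SysE NS3 NSE)

/-! ### the class of `(0, 0)` -/

/-- the class is not the class of `(0, 0)` -/
theorem n2_gen {D : ℤ} (hD0 : D ≠ 0) {z π : RR} (hπ : Prime π)
    (h1 : π ∣ (D : RR) * ((aR - 11) * z)) (h2 : ¬ π ^ 2 ∣ (D : RR) * ((aR - 11) * z)) :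
    ¬ SqZ ℚ (21 * D) (112 * D ^ 2) (((112 * D ^ 2 : ℤ) : ℚ) * ((cY z : ℚ) / D))
      (((21 * D : ℤ) : ℚ) * ((cY z : ℚ) / D) - ((cX z : ℚ) + 11 * (cY z : ℚ))) := by
  have hD : (D : ℚ) ≠ 0 := by exact_mod_cast hD0
  rintro ⟨g, h, e1, e2⟩
  push_cast at e1 e2
  have e1' : 112 * D * (cY z : ℚ) = g ^ 2 - 112 * D ^ 2 * h ^ 2 := by
    rw [← e1]
    field_simp
  have e2' : 10 * (cY z : ℚ) - cX z = 2 * g * h - 21 * D * h ^ 2 := by
    rw [← e2]
    field_simp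
    ring
  set w : RR := ((-D : ℤ) : RR) * ((aR - 11) * z) with hw
  have hww : w = -((D : RR) * ((aR - 11) * z)) := by
    rw [hw]
    push_cast
    ring
  have ha11 : cX (aR - 11) = -11 ∧ cY (aR - 11) = 1 := by
    have h0 : (aR - 11 : RR) = aR + ((-11 : ℤ) : RR) := by push_cast; ring
    rw [h0, (cXY_add _ _).1, (cXY_add _ _).2, (cXY_int _).1, (cXY_int _).2, cXY_aR.1, cXY_aR.2]
    constructor <;> norm_num
  have hwc : cX w = D * (11 * cX z + 2 * cY z) ∧ cY w = D * (10 * cY z - cX z) := by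
    have k1 := cXY_mul (aR - 11) z
    rw [ha11.1, ha11.2] at k1
    have k2 := cXY_mul ((-D : ℤ) : RR) ((aR - 11) * z)
    rw [(cXY_int (-D)).1, (cXY_int (-D)).2, k1.1, k1.2] at k2
    rw [hw, k2.1, k2.2]
    constructor <;> ring
  refine no_sq hπ (z := w) (A := g - 11 * D * h) (B := D * h) ?_ ?_ ?_ ?_
  · rw [hww, dvd_neg]
    exact h1
  · rw [hww, dvd_neg]
    exact h2
  · rw [hwc.1]
    push_cast
    linear_combination -e1' + 11 * D * e2'
  · rw [hwc.2]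
    push_cast
    linear_combination -D * e2'

lemma aR11 : (aR - 11 : RR) = fR * (1 - aR) ^ 4 := by
  have q1 : (1 - aR) ^ 2 = -aR - 1 := by linear_combination aR_sq
  have q2 : (1 - aR) ^ 4 = 3 * aR - 1 := by
    have : (1 - aR) ^ 4 = ((1 - aR) ^ 2) ^ 2 := by ring
    rw [this, q1]
    linear_combination aR_sq
  rw [q2]
  unfold fR
  linear_combination -6 * aR_sq

/-! ### the residue map modulo `aR` -/

/-- the residue map -/
noncomputable def e0 : RR →+* ZMod 2 := ev 0 (by decide)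

lemma e0_aR : e0 aR = 0 := ev_aR _ _

lemma e0_dvd {x : RR} (h : aR ∣ x) : e0 x = 0 := by
  obtain ⟨w, rfl⟩ := h
  rw [map_mul, e0_aR, zero_mul]

lemma e0_N1 {x : RR} (h : N1 x) : e0 x = 1 := by
  obtain ⟨u, hu⟩ := h
  rw [hu, map_add, map_one, map_mul, map_pow, e0_aR]
  ring

lemma e0_fR : e0 fR = 1 := by
  unfold fR
  rw [map_sub, map_mul, e0_aR, map_one]
  decide

lemma nR_aR : nR aR = 2 := by
  unfold nR
  rw [cXY_aR.1, cXY_aR.2]
  norm_num

lemma nR_fR' : nR fR = 7 := by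
  unfold nR
  rw [cXY_fR.1, cXY_fR.2]
  norm_num

lemma prime_aR : Prime aR := prime_of_nR Nat.prime_two nR_aR

section
variable {Q P : Finset ℕ} {ϖ : ℕ → RR} {s z e : ZMod 2} {T : Finset (ℕ × Bool)}

lemma nR_pow (x : RR) (k : ℕ) : nR (x ^ k) = nR x ^ k := by
  induction k with
  | zero =>
    rw [pow_zero, pow_zero]
    have := nR_int 1
    push_cast at this
    rw [this]
  | succ k ih => rw [pow_succ, pow_succ, nR_mul, ih]

lemma nR_gg (s z e : ZMod 2) : nR (gg s z e) = 2 ^ z.val * 7 ^ e.val := by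
  have h1 : nR (-1 : RR) = 1 := by
    have := nR_int (-1)
    push_cast at this
    rw [this]
  have h2 : nR (-fR) = 7 := by rw [nR_neg, nR_fR']
  unfold gg
  rw [nR_mul, nR_mul, nR_pow, nR_pow, nR_pow, h1, nR_aR1, h2, one_pow, one_mul]

/-- the norm divides the square of the product of the primes -/
lemma nR_zT' (h : Dt Q P ϖ) (hT : T ⊆ ix Q P) :
    nR (zT Q ϖ T) ∣ (((∏ q ∈ Q ∪ P, q : ℕ) : ℤ)) ^ 2 := by
  have h0 : zT Q ϖ (ix Q P \ T) * zT Q ϖ T = ∏ i ∈ ix Q P, pfx Q ϖ i := by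
    unfold zT
    rw [Finset.prod_sdiff hT]
  have h1 : nR (∏ i ∈ ix Q P, pfx Q ϖ i) = (((∏ q ∈ Q ∪ P, q : ℕ) : ℤ)) ^ 2 := by
    rcases par4 h with h4 | h4
    · rw [h.prod_pfx h4, nR_nat]
    · rw [prod3 h h4, nR_neg, nR_nat]
  have h2 := congrArg nR h0
  rw [nR_mul, h1] at h2
  exact ⟨_, by rw [← h2]; ring⟩

lemma zT_odd (h : Dt Q P ϖ) (hT : T ⊆ ix Q P) : ¬ (2 : ℤ) ∣ nR (zT Q ϖ T) := by
  intro h1
  have h2 := h1.trans (nR_zT' h hT)
  have h3 := Int.prime_two.dvd_of_dvd_pow h2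
  have h4 := par4 h
  omega

lemma zT_seven (h : Dt Q P ϖ) (hT : T ⊆ ix Q P) : ¬ (7 : ℤ) ∣ nR (zT Q ϖ T) := by
  intro h1
  have p7 : Prime (7 : ℤ) := by
    have := Nat.prime_iff_prime_int.1 (show Nat.Prime 7 by norm_num)
    exact_mod_cast this
  have h2 := p7.dvd_of_dvd_pow (h1.trans (nR_zT' h hT))
  have h2' : 7 ∣ ∏ q ∈ Q ∪ P, q := by exact_mod_cast h2
  obtain ⟨q, hq, hpq⟩ := (Prime.dvd_finsetProd_iff (show Nat.Prime 7 by norm_num).prime _).1 h2'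
  have h3 := (Nat.prime_dvd_prime_iff_eq (by norm_num) (h.od q hq).pr).1 hpq
  rw [← h3, Finset.mem_union] at hq
  rcases hq with hq | hq
  · exact (h.q 7 hq).ne7 rfl
  · exact (h.p 7 hq).n7 rfl

/-- a prime dividing the element exactly once -/
lemma exists_once (h : Dt Q P ϖ) (hT : T ⊆ ix Q P) (s : ZMod 2)
    (hnt : z = 1 ∨ e = 1 ∨ T.Nonempty) :
    ∃ π : RR, Prime π ∧ π ∣ gg s z e * zT Q ϖ T ∧ ¬ π ^ 2 ∣ gg s z e * zT Q ϖ T := by
  classical
  have n1 : nR (-1 : RR) = 1 := by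
    have := nR_int (-1)
    push_cast at this
    rw [this]
  have p7 : Prime (7 : ℤ) := by
    have := Nat.prime_iff_prime_int.1 (show Nat.Prime 7 by norm_num)
    exact_mod_cast this
  rcases hnt with hz | he | hT'
  · subst hz
    have hp : Prime (aR - 1) := prime_of_nR Nat.prime_two nR_aR1
    have e1 : gg s 1 e * zT Q ϖ T = (aR - 1) * ((-1) ^ s.val * (-fR) ^ e.val * zT Q ϖ T) := by
      unfold gg
      rw [v1, pow_one]
      ring
    refine ⟨aR - 1, hp, by rw [e1]; exact dvd_mul_right _ _, ?_⟩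
    rw [e1, pow_two]
    intro h1
    have h2 := (mul_dvd_mul_iff_left hp.ne_zero).1 h1
    have h3 := Pool.Agent.L0h4.TA.nR_dvd_of h2
    rw [nR_aR1, nR_mul, nR_mul, nR_pow, nR_pow, nR_neg fR, nR_fR', n1, one_pow, one_mul] at h3
    rcases Int.prime_two.dvd_or_dvd h3 with h4 | h4
    · have := Int.prime_two.dvd_of_dvd_pow h4
      norm_num at this
    · exact zT_odd h hT h4
  · subst he
    have hp : Prime fR := prime_of_nR (show Nat.Prime 7 by norm_num) nR_fR'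
    have e1 : gg s z 1 * zT Q ϖ T = fR * (-((-1) ^ s.val * (aR - 1) ^ z.val * zT Q ϖ T)) := by
      unfold gg
      rw [v1, pow_one]
      ring
    refine ⟨fR, hp, by rw [e1]; exact dvd_mul_right _ _, ?_⟩
    rw [e1, pow_two]
    intro h1
    have h2 := (mul_dvd_mul_iff_left hp.ne_zero).1 h1
    have h3 := Pool.Agent.L0h4.TA.nR_dvd_of h2
    rw [nR_fR', nR_neg, nR_mul, nR_mul, nR_pow, nR_pow, nR_aR1, n1, one_pow, one_mul] at h3
    rcases p7.dvd_or_dvd h3 with h4 | h4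
    · have := p7.dvd_of_dvd_pow h4
      norm_num at this
    · exact zT_seven h hT h4
  · obtain ⟨i, hi⟩ := hT'
    have hp := (h.fx.pd i (hT hi)).pr
    have e1 : gg s z e * zT Q ϖ T = pfx Q ϖ i * (gg s z e * zT Q ϖ (T.erase i)) := by
      unfold zT
      rw [← Finset.mul_prod_erase _ _ hi]
      ring
    refine ⟨pfx Q ϖ i, hp, by rw [e1]; exact dvd_mul_right _ _, ?_⟩
    rw [e1, pow_two]
    intro h1
    have h2 := (mul_dvd_mul_iff_left hp.ne_zero).1 h1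
    rcases hp.dvd_or_dvd h2 with h3 | h3
    · have h4 := (sg_g h (hT hi) s z e).1
      unfold SG sy at h4
      rw [if_pos (Ideal.mem_span_singleton.2 h3)] at h4
      rcases h4 with h4 | h4
      · exact zero_ne_one h4
      · norm_num at h4
    · unfold zT at h3
      obtain ⟨j, hj, hj2⟩ := (Prime.dvd_finsetProd_iff hp _).1 h3
      rw [Finset.mem_erase] at hj
      apply h.fx.ne j (hT hj.2) i (hT hi) hj.1
      exact Ideal.mem_span_singleton.2 hj2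

/-- the second condition for odd `D` -/
lemma n2_odd (h : Dt Q P ϖ) (hT : T ⊆ ix Q P) {D : ℤ} (h7 : ¬ (7 : ℤ) ∣ D) :
    fR ∣ (D : RR) * ((aR - 11) * (gg s z 0 * zT Q ϖ T)) ∧
    ¬ fR ^ 2 ∣ (D : RR) * ((aR - 11) * (gg s z 0 * zT Q ϖ T)) := by
  have p7 : Prime (7 : ℤ) := by
    have := Nat.prime_iff_prime_int.1 (show Nat.Prime 7 by norm_num)
    exact_mod_cast this
  have hp : Prime fR := prime_of_nR (show Nat.Prime 7 by norm_num) nR_fR'
  have e1 : (D : RR) * ((aR - 11) * (gg s z 0 * zT Q ϖ T)) =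
      fR * ((D : RR) * ((-(aR - 1)) ^ 4 * (gg s z 0 * zT Q ϖ T))) := by
    rw [aR11]
    ring
  refine ⟨by rw [e1]; exact dvd_mul_right _ _, ?_⟩
  rw [e1, pow_two]
  intro h1
  have h2 := (mul_dvd_mul_iff_left hp.ne_zero).1 h1
  have h3 := Pool.Agent.L0h4.TA.nR_dvd_of h2
  rw [nR_fR', nR_mul, nR_mul, nR_mul, nR_pow, nR_neg, nR_aR1, nR_int, nR_gg, v0, pow_zero,
    mul_one] at h3
  rcases p7.dvd_or_dvd h3 with h4 | h4
  · exact h7 (p7.dvd_of_dvd_pow h4)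
  · rcases p7.dvd_or_dvd h4 with h4 | h4
    · norm_num at h4
    · rcases p7.dvd_or_dvd h4 with h4 | h4
      · have := p7.dvd_of_dvd_pow h4
        norm_num at this
      · exact zT_seven h hT h4

/-- the second condition for `D = 2 M` -/
lemma n2_even (h : Dt Q P ϖ) (hT : T ⊆ ix Q P) {M : ℕ} (hM : M % 2 = 1) :
    aR ∣ (((2 * M : ℕ) : ℤ) : RR) * ((aR - 11) * (gg s z e * zT Q ϖ T)) ∧
    ¬ aR ^ 2 ∣ (((2 * M : ℕ) : ℤ) : RR) * ((aR - 11) * (gg s z e * zT Q ϖ T)) := by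
  have e1 : (((2 * M : ℕ) : ℤ) : RR) * ((aR - 11) * (gg s z e * zT Q ϖ T)) =
      aR * ((1 - aR) * (M : RR) * (fR * (1 - aR) ^ 4) * (gg s z e * zT Q ϖ T)) := by
    rw [aR11]
    push_cast
    linear_combination (M : RR) * (fR * (1 - aR) ^ 4) * (gg s z e * zT Q ϖ T) * aR_sq
  refine ⟨by rw [e1]; exact dvd_mul_right _ _, ?_⟩
  rw [e1, pow_two]
  intro h1
  have h2 := e0_dvd ((mul_dvd_mul_iff_left prime_aR.ne_zero).1 h1)
  have h3 : e0 (1 - aR) = 1 := by rw [map_sub, map_one, e0_aR, sub_zero]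
  have h4 : e0 (M : RR) = 1 := by
    rw [map_natCast]
    have h5 : (M : ZMod 2) = ((M % 2 : ℕ) : ZMod 2) := by rw [ZMod.natCast_mod]
    rw [h5, hM]
    rfl
  have h5 : e0 (gg s z e) = 1 := by
    have h6 : e0 (aR - 1) = 1 := by
      rw [map_sub, map_one, e0_aR]
      decide
    have h7 : e0 (-fR) = 1 := by
      rw [map_neg, e0_fR]
      decide
    have h8 : e0 (-1) = 1 := by
      rw [map_neg, map_one]
      decide
    unfold gg
    rw [map_mul, map_mul, map_pow, map_pow, map_pow, h6, h7, h8, one_pow, one_pow, one_pow]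
    decide
  have h6 : e0 (zT Q ϖ T) = 1 := by
    unfold zT
    rw [map_prod]
    exact Finset.prod_eq_one fun i hi => e0_N1 (N1_pfx h (hT hi))
  rw [map_mul, map_mul, map_mul, map_mul, map_mul, map_pow, h3, h4, h5, h6, e0_fR] at h2
  revert h2
  decide

end

/-! ### the conclusion -/

section
variable {Q P : Finset ℕ} {ϖ : ℕ → RR} {s z e : ZMod 2} {T : Finset (ℕ × Bool)}

/-- locally solvable everywhere -/
theorem loc_ev (h : Dt Q P ϖ) (hT : T ⊆ ix Q P) {D : ℤ} {c : ℕ} (hc : c = 1 ∨ c = 2)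
    (hD : D = ((c * ∏ q ∈ Q ∪ P, q : ℕ) : ℤ))
    (hlc : ∀ j ∈ ix Q P, LC (pfx Q ϖ j) D (gg s z e * zT Q ϖ T))
    (h2' : LocZ ℚ_[2] (21 * D) (112 * D ^ 2) ((cX (gg s z e * zT Q ϖ T) : ℚ_[2]) +
      11 * (cY (gg s z e * zT Q ϖ T) : ℚ_[2])) ((cY (gg s z e * zT Q ϖ T) : ℚ_[2]) / D))
    (h7' : ∀ _ : Fact (Nat.Prime 7), LocZ ℚ_[7] (21 * D) (112 * D ^ 2)
      ((cX (gg s z e * zT Q ϖ T) : ℚ_[7]) + 11 * (cY (gg s z e * zT Q ϖ T) : ℚ_[7]))
      ((cY (gg s z e * zT Q ϖ T) : ℚ_[7]) / D)) (p : ℕ) [hp : Fact p.Prime] :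
    LocZ ℚ_[p] (21 * D) (112 * D ^ 2) ((cX (gg s z e * zT Q ϖ T) : ℚ_[p]) +
      11 * (cY (gg s z e * zT Q ϖ T) : ℚ_[p])) ((cY (gg s z e * zT Q ϖ T) : ℚ_[p]) / D) := by
  classical
  have hM0 : ∏ q ∈ Q ∪ P, q ≠ 0 := by
    have := par4 h
    omega
  have hD0 : D ≠ 0 := by
    rw [hD]
    have : c * ∏ q ∈ Q ∪ P, q ≠ 0 := mul_ne_zero (by omega) hM0
    exact_mod_cast this
  by_cases h2 : p = 2
  · subst h2
    exact h2'
  by_cases h7 : p = 7
  · subst h7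
    exact h7' hp
  by_cases hQ : p ∈ Q
  · have hj : (p, false) ∈ ix Q P := mem_ix.2 (Or.inl ⟨hQ, rfl⟩)
    refine locI (h.q p hQ) hD0 ?_
    have := hlc _ hj
    rwa [pfx_Q hQ] at this
  by_cases hP : p ∈ P
  · have hi : (p, false) ∈ ix Q P := mem_ix.2 (Or.inr (Or.inl ⟨hP, rfl⟩))
    have hj : (p, true) ∈ ix Q P := mem_ix.2 (Or.inr (Or.inr ⟨hP, rfl⟩))
    have hPm : p ∈ Q ∪ P := Finset.mem_union_right _ hP
    refine locS h hP (D' := ((c * ∏ q ∈ (Q ∪ P).erase p, q : ℕ) : ℤ)) ?_ ?_ (hlc _ hi) (hlc _ hj)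
    · rw [hD, ← Finset.mul_prod_erase _ _ hPm]
      push_cast
      ring
    · intro h3
      have h4 : p ∣ c * ∏ q ∈ (Q ∪ P).erase p, q := by exact_mod_cast h3
      rcases hp.out.dvd_mul.1 h4 with h5 | h5
      · have h6 : p ∣ 2 := by
          rcases hc with rfl | rfl
          · exact h5.trans (one_dvd _)
          · exact h5
        exact h2 ((Nat.prime_dvd_prime_iff_eq hp.out Nat.prime_two).1 h6)
      · obtain ⟨q, hq, hpq⟩ := (Prime.dvd_finsetProd_iff hp.out.prime _).1 h5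
        rw [Finset.mem_erase] at hq
        exact hq.1 ((Nat.prime_dvd_prime_iff_eq hp.out (h.od q hq.2).pr).1 hpq).symm
  have hpM : ¬ p ∣ ∏ q ∈ Q ∪ P, q := by
    intro h5
    obtain ⟨q, hq, hpq⟩ := (Prime.dvd_finsetProd_iff hp.out.prime _).1 h5
    have h3 := (Nat.prime_dvd_prime_iff_eq hp.out (h.od q hq).pr).1 hpq
    rw [← h3, Finset.mem_union] at hq
    exact hq.elim hQ hP
  have hpD : ¬ (p : ℤ) ∣ D := by
    rw [hD]
    intro h1
    have h3 : p ∣ c * ∏ q ∈ Q ∪ P, q := by exact_mod_cast h1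
    rcases hp.out.dvd_mul.1 h3 with h5 | h5
    · have h6 : p ∣ 2 := by
        rcases hc with rfl | rfl
        · exact h5.trans (one_dvd _)
        · exact h5
      exact h2 ((Nat.prime_dvd_prime_iff_eq hp.out Nat.prime_two).1 h6)
    · exact hpM h5
  refine Pool.Agent.L0h98.BSD.good_prime p h2 h7 D hpD _ _ ?_
  intro h1
  have h3 : (p : ℤ) ∣ nR (gg s z e * zT Q ϖ T) := h1
  have hpp := Nat.prime_iff_prime_int.1 hp.out
  rw [nR_mul, nR_gg] at h3
  rcases hpp.dvd_or_dvd h3 with h4 | h4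
  · rcases hpp.dvd_or_dvd h4 with h4 | h4
    · have h5 := hpp.dvd_of_dvd_pow h4
      have h6 : p ∣ 2 := by exact_mod_cast h5
      exact h2 ((Nat.prime_dvd_prime_iff_eq hp.out Nat.prime_two).1 h6)
    · have h5 := hpp.dvd_of_dvd_pow h4
      have h6 : p ∣ 7 := by exact_mod_cast h5
      exact h7 ((Nat.prime_dvd_prime_iff_eq hp.out (by norm_num)).1 h6)
  · have h5 := hpp.dvd_of_dvd_pow (h4.trans (nR_zT' h hT))
    exact hpM (by exact_mod_cast h5)

end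

/-- a nontrivial element of order two from a class which is locally solvable -/
theorem sha_of {D : ℕ} (hD0 : D ≠ 0) (hf : Finite (WX ℚ D).toAffine.Point) {x : RR} (hx : x ≠ 0)
    (hloc : ∀ (p : ℕ) [Fact p.Prime], LocZ ℚ_[p] (21 * (D : ℤ)) (112 * (D : ℤ) ^ 2)
      ((cX x : ℚ_[p]) + 11 * (cY x : ℚ_[p])) ((cY x : ℚ_[p]) / (D : ℤ)))
    (n1 : ∃ π : RR, Prime π ∧ π ∣ x ∧ ¬ π ^ 2 ∣ x)
    (n2 : ∃ π : RR, Prime π ∧ π ∣ ((D : ℤ) : RR) * ((aR - 11) * x) ∧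
      ¬ π ^ 2 ∣ ((D : ℤ) : RR) * ((aR - 11) * x)) :
    ∃ y : Sha (WX ℚ D), y ≠ 0 ∧ y + y = 0 := by
  classical
  have hDZ : (D : ℤ) ≠ 0 := by exact_mod_cast hD0
  have hDQ : (((D : ℕ) : ℤ) : ℚ) ≠ 0 := by exact_mod_cast hD0
  have hb : 112 * (D : ℤ) ^ 2 ≠ 0 := mul_ne_zero (by norm_num) (pow_ne_zero 2 hDZ)
  have hab : (21 * (D : ℤ)) ^ 2 - 4 * (112 * (D : ℤ) ^ 2) < 0 := by
    have : 0 < (D : ℤ) ^ 2 := by positivity
    nlinarith
  have nb : ¬ IsSquare ((112 * (D : ℤ) ^ 2 : ℤ) : ℚ) := by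
    rintro ⟨s, hs⟩
    have h5 : IsSquare (7 : ℚ) := by
      refine ⟨s / (4 * D), ?_⟩
      push_cast at hs hDQ
      field_simp
      linear_combination hs
    have h6 : IsSquare (7 : ℤ) := by
      have h7 : IsSquare ((7 : ℤ) : ℚ) := by exact_mod_cast h5
      exact Rat.isSquare_intCast_iff.1 h7
    obtain ⟨t, ht⟩ := h6
    have h8 : t < 3 := by nlinarith
    have h9 : -3 < t := by nlinarith
    interval_cases t <;> omega
  have nab : ¬ IsSquare (((21 * (D : ℤ) : ℤ) : ℚ) ^ 2 - 4 * ((112 * (D : ℤ) ^ 2 : ℤ) : ℚ)) := by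
    rintro ⟨s, hs⟩
    push_cast at hs hDQ
    have h5 : 0 < (D : ℚ) ^ 2 := by positivity
    nlinarith [mul_self_nonneg s]
  have hV := vr_WX ℚ D
  have hVD := WX_ne ℚ hD0
  have hfW : Finite (WF ℚ (21 * (D : ℤ)) (112 * (D : ℤ) ^ 2)).toAffine.Point :=
    Finite.of_equiv _ (hV.equiv hVD).toEquiv
  obtain ⟨π₁, p1, a1, b1⟩ := n1
  obtain ⟨π₂, p2, a2, b2⟩ := n2
  obtain ⟨y, hy0, hy2⟩ := Pool.Agent.L0h23.SZ.Ad.exists_shaZ (K := ℚ) hb hab nb nab hfW
    (u := (cX x : ℚ) + 11 * (cY x : ℚ)) (v := (cY x : ℚ) / (D : ℤ))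
    (by
      have h5 : (nR x : ℚ) ≠ 0 := by
        have := nR_pos hx
        exact_mod_cast this.ne'
      intro h6
      apply h5
      rw [← h6]
      unfold nR
      push_cast
      push_cast at hDQ
      field_simp
      ring)
    (by
      intro w
      have : Fact (below w : ℕ).Prime := ⟨(below w).2⟩
      have h5 := (hloc (below w : ℕ)).map (Th.pth (v := w) (p := (below w : ℕ)) (nm_eq w).2.2)
      simp only [map_add, map_mul, map_div₀, map_intCast, map_ofNat] at h5 ⊢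
      exact h5)
    (n1_of hDZ p1 a1 b1) (n2_gen hDZ p2 a2 b2)
  have hI := (Pool.Agent.Y655.XT.isoVR hV hVD).sha
  refine ⟨hI.symm y, fun h5 => hy0 ?_, ?_⟩
  · have := congrArg hI h5
    rwa [AddEquiv.apply_symm_apply, map_zero] at this
  · rw [← map_add, hy2, map_zero]

/-- **the converse for `D ≡ 3 mod 4`** -/
theorem conv3 {Q P : Finset ℕ} {ϖ : ℕ → RR} (h : Dt Q P ϖ) {D : ℕ} (hD : D = ∏ q ∈ Q ∪ P, q)
    (h4 : D % 4 = 3) (hns : ¬ NS3 Q P ϖ D) (hf : Finite (WX ℚ D).toAffine.Point) :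
    ∃ x : Sha (WX ℚ D), x ≠ 0 ∧ x + x = 0 := by
  classical
  have hD0 : D ≠ 0 := by omega
  obtain ⟨s, z, T, hS⟩ := exists_Sol3 h hD h4 hns
  have hDR : (((D : ℕ) : ℤ) : RR) = -1 * ∏ i ∈ ix Q P, pfx Q ϖ i := by
    rw [prod3 h (by rw [← hD]; exact h4), ← hD]
    push_cast
    ring
  have h7D : ¬ (7 : ℤ) ∣ (D : ℤ) := by
    intro h1
    have h2 : (D : ℤ) ^ 2 = nR (zT Q ϖ (ix Q P)) := by
      unfold zT
      rw [prod3 h (by rw [← hD]; exact h4), nR_neg, nR_nat, hD]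
    exact zT_seven h (Finset.Subset.refl _) (h2 ▸ (h1.trans (dvd_pow_self _ two_ne_zero)))
  have once := exists_once (z := z) (e := 0) h hS.sol.sub s
    (by rcases hS.nt with h5 | h5; exacts [Or.inl h5, Or.inr (Or.inr h5)])
  refine sha_of hD0 hf (x := gg s z 0 * zT Q ϖ T) ?_ ?_ once ?_
  · obtain ⟨π, -, -, h6⟩ := once
    intro h7
    rw [h7] at h6
    exact h6 (dvd_zero _)
  · intro p hp
    refine loc_ev h hS.sol.sub (c := 1) (Or.inl rfl) (by rw [one_mul, hD]) ?_ ?_ ?_ p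
    · intro j hj
      exact hS.sol.lc h hDR (fun i hi => SG_neg (h.fx.pd i hi).pr) hj
    · exact hS.two h h4
    · intro _
      exact loc7a (by exact_mod_cast hD0) (hS.seven h hD h4)
  · exact ⟨fR, prime_of_nR (show Nat.Prime 7 by norm_num) nR_fR', n2_odd h hS.sol.sub h7D⟩

/-- **the converse for `D = 2 M`** -/
theorem convE {Q P : Finset ℕ} {ϖ : ℕ → RR} (h : Dt Q P ϖ) {M : ℕ} (hM : M = ∏ q ∈ Q ∪ P, q)
    (hns : ¬ NSE Q P ϖ M) (hf : Finite (WX ℚ (2 * M)).toAffine.Point) :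
    ∃ x : Sha (WX ℚ (2 * M)), x ≠ 0 ∧ x + x = 0 := by
  classical
  have hM4 := par4 h
  rw [← hM] at hM4
  have hM2 : M % 2 = 1 := by omega
  have hD0 : 2 * M ≠ 0 := by omega
  obtain ⟨z, e, T, hS⟩ := exists_SolE h hns
  have hDR : (((2 * M : ℕ) : ℤ) : RR) = 2 * (-1) ^ (if M % 4 = 3 then (1 : ZMod 2) else 0).val *
      ∏ i ∈ ix Q P, pfx Q ϖ i := by
    rcases hM4 with h5 | h5
    · rw [h.prod_pfx (by rw [← hM]; exact h5), ← hM, if_neg (by omega), v0]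
      push_cast
      ring
    · rw [prod3 h (by rw [← hM]; exact h5), ← hM, if_pos h5, v1]
      push_cast
      ring
  have once := exists_once h hS.sol.sub 0 hS.nt
  refine sha_of hD0 hf (x := gg 0 z e * zT Q ϖ T) ?_ ?_ once ?_
  · obtain ⟨π, -, -, h6⟩ := once
    intro h7
    rw [h7] at h6
    exact h6 (dvd_zero _)
  · intro p hp
    refine loc_ev h hS.sol.sub (c := 2) (Or.inr rfl) (by rw [hM]) ?_ ?_ ?_ p
    · intro j hj
      refine hS.sol.lc h hDR (fun i hi => ?_) hj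
      exact ((sg_t h hi).1.mul (h.fx.pd i hi).pr
        ((SG_neg (h.fx.pd i hi).pr).powv (h.fx.pd i hi).pr _).1).1
    · exact hS.two h hM2 (by push_cast; rfl)
    · intro _
      have hDZ : ((2 * M : ℕ) : ℤ) ≠ 0 := by exact_mod_cast hD0
      rcases hS.seven h hM hDR with ⟨-, h5⟩ | ⟨h5, h6⟩
      · exact loc7a hDZ h5
      · refine loc7b hDZ (z₁ := (aR - 1) ^ z.val * zT Q ϖ T) ?_ h6
        rw [h5]
        unfold gg
        rw [v0, v1, pow_zero, pow_one]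
        ring
  · exact ⟨aR, prime_aR, n2_even h hS.sol.sub hM2⟩

end Pool.Agent.L0h4.TE
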