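import Pool.Agent.L0h4.TE.Sys
import Pool.Agent.L0h98.BSD.TwoEven
import Pool.Agent.L0h98.BSD.GoodPrime

/-!
# The local conditions at seven and two, and non-triviality
-/

set_option autoImplicit false
set_option linter.unusedSectionVars false

namespace Pool.Agent.L0h4.TE

open Pool.Agent.Y698 Pool.Agent.Y698.SG Pool.Agent.L0h4.TW Pool.Agent.L0h4.TC
open Pool.Agent.W192.HK
open Pool.Agent.Y279.SG (nR_int dec cXY_cj nR_dvd)
open Pool.Agent.L0h23.ED (lam lab S_R2 kn kl kb k7 Sys3 SysE NS3 NSE)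
open Pool.Agent.L0h98.BSD.TwoE (A2 two_even)

/-! ### seven -/

lemma e7_m1 : e7 (-1) = -1 := by rw [e7_neg, e7_one]

lemma e7_aR1 : e7 (aR - 1) = -1 := by
  unfold e7
  rw [map_sub, r7_aR, map_one]
  have : quadraticChar (ZMod 7) (4 - 1) = -1 := by decide
  rw [this]
  push_cast
  rfl

lemma e7_two : e7 2 = 1 := by
  unfold e7
  rw [map_ofNat]
  have : quadraticChar (ZMod 7) 2 = 1 := by decide
  rw [this]
  push_cast
  rfl

lemma e7g (s z : ZMod 2) : (e7 ((-1) ^ s.val * (aR - 1) ^ z.val) = 1 ∨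
    e7 ((-1) ^ s.val * (aR - 1) ^ z.val) = -1) ∧
    lg (e7 ((-1) ^ s.val * (aR - 1) ^ z.val)) = s + z := by
  rcases zmod2 s with rfl | rfl <;> rcases zmod2 z with rfl | rfl
  · rw [v0, pow_zero, pow_zero, one_mul, e7_one, lg_one]
    exact ⟨Or.inl rfl, by decide⟩
  · rw [v0, v1, pow_zero, pow_one, one_mul, e7_aR1, lg_neg_one]
    exact ⟨Or.inr rfl, by decide⟩
  · rw [v0, v1, pow_zero, pow_one, mul_one, e7_m1, lg_neg_one]
    exact ⟨Or.inr rfl, by decide⟩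
  · rw [v1, pow_one, pow_one, e7_mul, e7_m1, e7_aR1]
    norm_num
    rw [lg_one]
    decide

section
variable {Q P : Finset ℕ} {ϖ : ℕ → RR} {s z e L nb w : ZMod 2} {T : Finset (ℕ × Bool)}

theorem Sol3.seven (h : Dt Q P ϖ) {D : ℕ} (hD : D = ∏ q ∈ Q ∪ P, q) (h4 : D % 4 = 3)
    (hS : Sol3 Q P ϖ (if D % 8 = 7 then 1 else 0) s z T) : e7 (gg s z 0 * zT Q ϖ T) = 1 := by
  obtain ⟨a1, a2⟩ := e7g s z
  obtain ⟨b1, b2⟩ := e7_zT h hS.sol.sub
  have h5 := hS.sol.sev h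
  have h6 := hS.eq2
  have tb := (tot h).2
  rw [← hD] at tb
  set L : ZMod 2 := if D % 8 = 7 then 1 else 0 with hL
  have tb' : ∑ i ∈ ix Q P, kb (pfx Q ϖ) i = 1 + L := by
    rw [tb, hL]
    have h8 : D % 8 = 3 ∨ D % 8 = 7 := by omega
    rcases h8 with h8 | h8 <;> rw [h8]
    · rw [if_pos (by norm_num), if_neg (by norm_num), add_zero]
    · rw [if_neg (by norm_num), if_pos rfl]
      rfl
  have h7 : ∑ i ∈ T, lg (sy (pfx Q ϖ i) (-1)) = ∑ i ∈ T, kn (pfx Q ϖ) i := rfl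
  rw [tb', h7, ← b2] at h5
  unfold gg
  rw [v0, pow_zero, mul_one, e7_mul]
  refine lg_zero (sgn_mul a1 b1) ?_
  rw [lg_mul a1 b1, a2]
  have h2 := Pool.Agent.L0h4.TW.two_self z
  linear_combination h5 + h6 + h2

theorem SolE.seven (h : Dt Q P ϖ) {M : ℕ} (hM : M = ∏ q ∈ Q ∪ P, q)
    (hS : SolE Q P ϖ (if M % 4 = 3 then 1 else 0) (if M % 8 = 3 ∨ M % 8 = 5 then 1 else 0) z e T)
    {D : ℤ} (hD : (D : RR) = 2 * (-1) ^ (if M % 4 = 3 then (1 : ZMod 2) else 0).val *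
      ∏ i ∈ ix Q P, pfx Q ϖ i) :
    (e = 0 ∧ e7 (gg 0 z e * zT Q ϖ T) = 1) ∨
    (e = 1 ∧ e7 ((D : RR) * ((aR - 1) ^ z.val * zT Q ϖ T)) = 1) := by
  obtain ⟨b1, b2⟩ := e7_zT h hS.sol.sub
  obtain ⟨c1, c2⟩ := e7_zT h (Finset.Subset.refl (ix Q P))
  have h5 := hS.sol.sev h
  have h6 := hS.eq2
  have h6' := hS.eq1
  have tb := (tot h).2
  rw [← hM] at tb
  set w : ZMod 2 := if M % 8 = 3 ∨ M % 8 = 5 then 1 else 0 with hw
  set nb : ZMod 2 := if M % 4 = 3 then 1 else 0 with hnb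
  have h7 : ∑ i ∈ T, lg (sy (pfx Q ϖ i) (2 * (-1) ^ nb.val)) =
      ∑ i ∈ T, kl (pfx Q ϖ) i + ∑ i ∈ T, (kb (pfx Q ϖ) i + nb * kn (pfx Q ϖ) i) := by
    rw [← Finset.sum_add_distrib]
    refine Finset.sum_congr rfl fun j hj => ?_
    have hj' := hS.sol.sub hj
    obtain ⟨a1, a2⟩ := sg_t h hj'
    obtain ⟨d1, d2⟩ := (SG_neg (h.fx.pd j hj').pr).powv (h.fx.pd j hj').pr nb
    rw [(a1.mul (h.fx.pd j hj').pr d1).2, a2, d2]
    have : lg (sy (pfx Q ϖ j) (-1)) = kn (pfx Q ϖ) j := rfl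
    rw [this]
    ring
  rw [tb, h7, ← b2] at h5
  have h2 := Pool.Agent.L0h4.TW.two_self z
  rcases zmod2 e with rfl | rfl
  · left
    refine ⟨rfl, ?_⟩
    obtain ⟨a1, a2⟩ := e7g 0 z
    unfold gg
    rw [v0, pow_zero (-fR), mul_one, e7_mul]
    rw [v0] at a1 a2
    refine lg_zero (sgn_mul a1 b1) ?_
    rw [lg_mul a1 b1, a2]
    linear_combination h5 + h6 + h6'
  · right
    refine ⟨rfl, ?_⟩
    obtain ⟨a1, a2⟩ := e7g nb z
    have e1 : (D : RR) * ((aR - 1) ^ z.val * zT Q ϖ T) =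
        (2 * ((-1) ^ nb.val * (aR - 1) ^ z.val)) * (zT Q ϖ (ix Q P) * zT Q ϖ T) := by
      rw [hD]
      unfold zT
      ring
    rw [e1, e7_mul (2 * _), e7_mul 2, e7_mul (zT Q ϖ (ix Q P)), e7_two, one_mul]
    refine lg_zero (sgn_mul a1 (sgn_mul c1 b1)) ?_
    rw [lg_mul a1 (sgn_mul c1 b1), lg_mul c1 b1, a2, c2, Finset.sum_add_distrib, knsum h]
    have h3 := Pool.Agent.L0h4.TW.two_self (∑ i ∈ ix Q P, k7 (pfx Q ϖ) i)
    have h4 := Pool.Agent.L0h4.TW.two_self (1 : ZMod 2)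
    linear_combination h5 + h6 + h6' + h3 - h4

/-! ### two -/

lemma e6_gg (s z e : ZMod 2) : e6 (gg s z e) = f1 s * f5 (z + e) := by
  have h1 : e6 (-fR) = 5 := by
    unfold fR
    rw [map_neg, map_sub, map_mul, map_ofNat, map_one, e6_aR]
    decide
  have h2 : e6 (aR - 1) = 5 := by
    rw [map_sub, map_one, e6_aR]
    decide
  unfold gg
  rw [map_mul, map_mul, map_pow, map_pow, map_pow, h1, h2, map_neg, map_one]
  revert s z e
  decide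

lemma e3_mf (e : ZMod 2) : e3 ((-fR) ^ e.val) = f1 e * f5 e := by
  have h1 : e3 (-fR) = 3 := by
    unfold fR
    rw [map_neg, map_sub, map_mul, map_ofNat, map_one, e3_aR]
    decide
  rw [map_pow, h1]
  revert e
  decide

lemma e3_m1 (s : ZMod 2) : e3 ((-1) ^ s.val) = f1 s := by
  rw [map_pow, map_neg, map_one]
  revert s
  decide

/-- the class at the first root -/
lemma clsA (h : Dt Q P ϖ) (hT : T ⊆ ix Q P) (s z e : ZMod 2) {A b : ℤ_[2]} (hA : A ^ 2 = A - 2)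
    (hb : A = 6 + 32 * b) : C2 ((ev A hA (gg s z e * zT Q ϖ T) : ℤ_[2]) : ℚ_[2]) 0 s
      (z + e + ∑ i ∈ T, kl (pfx Q ϖ) i) := by
  have h1 : e6 (gg s z e * zT Q ϖ T) = f1 s * f5 (z + e + ∑ i ∈ T, kl (pfx Q ϖ) i) := by
    rw [map_mul, e6_gg, e6_zT h hT, f5_add (z + e), mul_assoc]
  obtain ⟨c, hc⟩ := ZMod.intCast_surjective (e6 (gg s z e * zT Q ϖ T))
  obtain ⟨w, hw⟩ := evA_of hA hb hc.symm
  exact C2_int hw (by rw [hc, h1])

/-- the class at the second root -/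
lemma clsB (h : Dt Q P ϖ) (hT : T ⊆ ix Q P) (s z e : ZMod 2) {A b : ℤ_[2]} (hA : A ^ 2 = A - 2)
    (hb : A = 6 + 32 * b) :
    C2 ((ev (1 - A) (hB_of hA) (gg s z e * zT Q ϖ T) : ℤ_[2]) : ℚ_[2]) z
      (s + e + ∑ i ∈ T, kn (pfx Q ϖ) i) (z + e + ∑ i ∈ T, kb (pfx Q ϖ) i) := by
  have e1 : gg s z e * zT Q ϖ T = (aR - 1) ^ z.val * ((-1) ^ s.val * (-fR) ^ e.val * zT Q ϖ T) := by
    unfold gg
    ring
  have h1 : e3 ((-1) ^ s.val * (-fR) ^ e.val * zT Q ϖ T) =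
      f1 (s + e + ∑ i ∈ T, kn (pfx Q ϖ) i) * f5 (e + ∑ i ∈ T, kb (pfx Q ϖ) i) := by
    rw [map_mul, map_mul, e3_m1, e3_mf, e3_zT h hT, f1_add (s + e), f1_add, f5_add]
    ring
  have h2 : C2 ((ev (1 - A) (hB_of hA) ((aR - 1) ^ z.val) : ℤ_[2]) : ℚ_[2]) z 0 z := by
    rcases zmod2 z with rfl | rfl
    · rw [v0, pow_zero, map_one]
      exact C2.one
    · rw [v1, pow_one]
      exact C2_aR1 hA hb
  have h3 := h2.mul (C2_e3 hA hb h1)
  rw [e1, map_mul, PadicInt.coe_mul]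
  rw [add_zero, zero_add, ← add_assoc] at h3
  exact h3

lemma A2_three {D : ℤ} (hD : D % 4 = 3) {L z n m : ZMod 2}
    (hL : L = if D % 8 = 7 then 1 else 0) (h : n = L * z) :
    A2 D (2 ^ z.val * (-1) ^ n.val * 5 ^ m.val) := by
  have h8 : D % 8 = 3 ∨ D % 8 = 7 := by omega
  subst h
  rcases h8 with h8 | h8
  · rw [h8, if_neg (by norm_num)] at hL
    subst hL
    left
    refine ⟨h8, ?_⟩
    revert z m
    decide
  · rw [h8, if_pos rfl] at hL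
    subst hL
    right
    left
    refine ⟨h8, ?_⟩
    revert z m
    decide

lemma A2_even {D : ℤ} {M : ℕ} (hD : D = 2 * M) (hM : M % 2 = 1) {nb w z n m : ZMod 2}
    (hnb : nb = if M % 4 = 3 then 1 else 0) (hw : w = if M % 8 = 3 ∨ M % 8 = 5 then 1 else 0)
    (h : m = n * nb + z * (1 + w)) :
    A2 D (2 ^ z.val * (-1) ^ n.val * 5 ^ m.val) := by
  have h8 : M % 8 = 1 ∨ M % 8 = 3 ∨ M % 8 = 5 ∨ M % 8 = 7 := by omega
  subst h
  rcases h8 with h8 | h8 | h8 | h8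
  · rw [if_neg (by omega)] at hnb hw
    subst hnb hw
    right; right; left
    refine ⟨by omega, ?_⟩
    revert z n
    decide
  · rw [if_pos (by omega)] at hnb hw
    subst hnb hw
    right; right; right; left
    refine ⟨by omega, ?_⟩
    revert z n
    decide
  · rw [if_neg (by omega)] at hnb
    rw [if_pos (by omega)] at hw
    subst hnb hw
    right; right; right; right; left
    refine ⟨by omega, ?_⟩
    revert z n
    decide
  · rw [if_pos (by omega)] at hnb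
    rw [if_neg (by omega)] at hw
    subst hnb hw
    right; right; right; right; right
    refine ⟨by omega, ?_⟩
    revert z n
    decide

lemma nA {A b : ℤ_[2]} (hb : A = 6 + 32 * b) : ‖(A : ℚ_[2])‖ < 1 := by
  have h1 : ‖A‖ < 1 := by
    rw [PadicInt.norm_lt_one_iff_dvd]
    exact ⟨3 + 16 * b, by rw [hb]; push_cast; ring⟩
  exact h1

/-- from the classes to the local condition -/
lemma two_of {D : ℤ} {x : RR} {A b : ℤ_[2]} (hA : A ^ 2 = A - 2) (hb : A = 6 + 32 * b)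
    (h1 : ∃ m : ℚ_[2], m ≠ 0 ∧ (((ev A hA x : ℤ_[2]) : ℚ_[2]) = m ^ 2 ∨
      5 * D * ((ev A hA x : ℤ_[2]) : ℚ_[2]) = m ^ 2)) {z n m : ZMod 2}
    (h2 : C2 ((ev (1 - A) (hB_of hA) x : ℤ_[2]) : ℚ_[2]) z n m)
    (h3 : A2 D (2 ^ z.val * (-1) ^ n.val * 5 ^ m.val)) :
    LocZ ℚ_[2] (21 * D) (112 * D ^ 2) ((cX x : ℚ_[2]) + 11 * (cY x : ℚ_[2]))
      ((cY x : ℚ_[2]) / D) := by
  have ea : ((ev A hA x : ℤ_[2]) : ℚ_[2]) = (cX x : ℚ_[2]) + (cY x : ℚ_[2]) * (A : ℚ_[2]) := by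
    rw [ev_apply]
    push_cast
    rfl
  have eb : ((ev (1 - A) (hB_of hA) x : ℤ_[2]) : ℚ_[2]) =
      (cX x : ℚ_[2]) + (cY x : ℚ_[2]) * (1 - (A : ℚ_[2])) := by
    rw [ev_apply]
    push_cast
    rfl
  rw [ea] at h1
  rw [eb] at h2
  have hAq : ((A : ℚ_[2])) ^ 2 = (A : ℚ_[2]) - 2 := by
    have := congrArg (fun t : ℤ_[2] => (t : ℚ_[2])) hA
    push_cast at this
    exact this
  refine two_even D hAq (nA hb) h1 h3 ?_
  obtain ⟨k, hk, e⟩ := h2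
  refine ⟨k, hk, ?_⟩
  rw [e]
  push_cast
  ring

theorem Sol3.two (h : Dt Q P ϖ) {D : ℕ} (h4 : D % 4 = 3)
    (hS : Sol3 Q P ϖ (if D % 8 = 7 then 1 else 0) s z T) :
    LocZ ℚ_[2] (21 * (D : ℤ)) (112 * (D : ℤ) ^ 2) ((cX (gg s z 0 * zT Q ϖ T) : ℚ_[2]) +
      11 * (cY (gg s z 0 * zT Q ϖ T) : ℚ_[2])) ((cY (gg s z 0 * zT Q ϖ T) : ℚ_[2]) / (D : ℤ)) := by
  obtain ⟨A, b, hA, hb⟩ := exists_root2
  set L : ZMod 2 := if D % 8 = 7 then 1 else 0 with hL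
  have hLZ : L = if (D : ℤ) % 8 = 7 then 1 else 0 := by
    rw [hL]
    by_cases h8 : D % 8 = 7
    · rw [if_pos h8, if_pos (by omega)]
    · rw [if_neg h8, if_neg (by omega)]
  have hA' := clsA h hS.sol.sub s z 0 hA hb
  have hB' := clsB h hS.sol.sub s z 0 hA hb
  rw [add_zero] at hA' hB'
  rw [hS.eq1] at hA'
  have h2 := Pool.Agent.L0h4.TW.two_self
  refine two_of hA hb ?_ hB' (A2_three (by omega) hLZ ?_)
  · obtain ⟨k, hk, e⟩ := hA'
    rcases zmod2 s with hs | hs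
    · refine ⟨k, hk, Or.inl ?_⟩
      rw [e, hs, mul_zero, v0]
      ring
    · have h8 : D % 8 = 3 ∨ D % 8 = 7 := by omega
      rcases h8 with h8 | h8
      · have hL0 : L = 0 := by rw [hL, if_neg (by omega)]
        obtain ⟨m, hm⟩ : ∃ m : ℤ, -5 * (D : ℤ) = 1 + 8 * m := ⟨(-5 * (D : ℤ) - 1) / 8, by omega⟩
        obtain ⟨r, hr, er⟩ := sq8 (m : ℤ_[2])
        refine ⟨r * k, mul_ne_zero hr hk, Or.inr ?_⟩
        have hm' := congrArg (fun t : ℤ => (t : ℚ_[2])) hm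
        push_cast at hm' er
        have c8 : ((8 : ℤ_[2]) : ℚ_[2]) = 8 := rfl
        rw [c8] at er
        rw [e, hs, hL0, zero_mul, v0, v1, mul_pow, ← er]
        push_cast
        linear_combination (k ^ 2) * hm'
      · have hL0 : L = 1 := by rw [hL, if_pos h8]
        obtain ⟨m, hm⟩ : ∃ m : ℤ, -25 * (D : ℤ) = 1 + 8 * m := ⟨(-25 * (D : ℤ) - 1) / 8, by omega⟩
        obtain ⟨r, hr, er⟩ := sq8 (m : ℤ_[2])
        refine ⟨r * k, mul_ne_zero hr hk, Or.inr ?_⟩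
        have hm' := congrArg (fun t : ℤ => (t : ℚ_[2])) hm
        push_cast at hm' er
        have c8 : ((8 : ℤ_[2]) : ℚ_[2]) = 8 := rfl
        rw [c8] at er
        rw [e, hs, hL0, mul_one, v0, v1, mul_pow, ← er]
        push_cast
        linear_combination (k ^ 2) * hm'
  · have := hS.eq2
    have h5 := h2 (L * z)
    linear_combination this - h5

theorem SolE.two (h : Dt Q P ϖ) {M : ℕ} (hM : M % 2 = 1)
    (hS : SolE Q P ϖ (if M % 4 = 3 then 1 else 0) (if M % 8 = 3 ∨ M % 8 = 5 then 1 else 0) z e T)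
    {D : ℤ} (hD : D = 2 * M) :
    LocZ ℚ_[2] (21 * D) (112 * D ^ 2) ((cX (gg 0 z e * zT Q ϖ T) : ℚ_[2]) +
      11 * (cY (gg 0 z e * zT Q ϖ T) : ℚ_[2])) ((cY (gg 0 z e * zT Q ϖ T) : ℚ_[2]) / D) := by
  obtain ⟨A, b, hA, hb⟩ := exists_root2
  have hA' := clsA h hS.sol.sub 0 z e hA hb
  have hB' := clsB h hS.sol.sub 0 z e hA hb
  rw [hS.eq1] at hA'
  have h2 := Pool.Agent.L0h4.TW.two_self
  refine two_of hA hb ?_ hB' (A2_even hD hM rfl rfl ?_)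
  · obtain ⟨k, hk, e'⟩ := hA'
    refine ⟨k, hk, Or.inl ?_⟩
    rw [e', v0]
    ring
  · have h5 := hS.eq2
    rw [Finset.sum_add_distrib, ← Finset.mul_sum] at h5
    set nb : ZMod 2 := if M % 4 = 3 then 1 else 0 with hnb
    set w : ZMod 2 := if M % 8 = 3 ∨ M % 8 = 5 then 1 else 0 with hw
    have h6 := h2 (w * z)
    have h7 := h2 (nb * e)
    have h8 := h2 (nb * ∑ i ∈ T, kn (pfx Q ϖ) i)
    linear_combination h5 - h6 - h7 - h8

end

end Pool.Agent.L0h4.TE
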