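import Pool.Agent.L0h4.TE.Two
import Pool.Agent.L0h61.EV.R2

/-!
# The local conditions at the odd primes from a solution of the linear system
-/

set_option autoImplicit false
set_option linter.unusedSectionVars false

namespace Pool.Agent.L0h4.TE

open Pool.Agent.Y698 Pool.Agent.Y698.SG Pool.Agent.L0h4.TW Pool.Agent.L0h4.TC
open Pool.Agent.W192.HK
open Pool.Agent.Y279.SG (nR_int dec cXY_cj nR_dvd)
open Pool.Agent.L0h23.ED (lam lab S_R2 kn kl kb k7 Sys3 SysE NS3 NSE)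

/-- the symbol is a sign -/
def SG (π x : RR) : Prop := sy π x = 1 ∨ sy π x = -1

lemma SG.mul {π x y : RR} (hπ : Prime π) (hx : SG π x) (hy : SG π y) :
    SG π (x * y) ∧ lg (sy π (x * y)) = lg (sy π x) + lg (sy π y) := by
  unfold SG
  rw [sy_mul' hπ]
  exact ⟨sgn_mul hx hy, lg_mul hx hy⟩

lemma SG.powv {π x : RR} (hπ : Prime π) (hx : SG π x) (t : ZMod 2) :
    SG π (x ^ t.val) ∧ lg (sy π (x ^ t.val)) = t * lg (sy π x) := by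
  rcases zmod2 t with rfl | rfl
  · rw [v0, pow_zero, zero_mul]
    unfold SG
    rw [TD.sy_oneX hπ]
    exact ⟨Or.inl rfl, lg_one⟩
  · rw [v1, pow_one, one_mul]
    exact ⟨hx, rfl⟩

/-- the unit and the primes above two and seven -/
noncomputable def gg (s z e : ZMod 2) : RR := (-1) ^ s.val * (aR - 1) ^ z.val * (-fR) ^ e.val

lemma nR_aR1 : nR (aR - 1) = 2 := by
  have h0 : (aR - 1 : RR) = aR + ((-1 : ℤ) : RR) := by push_cast; ring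
  unfold nR
  rw [h0, (cXY_add _ _).1, (cXY_add _ _).2, (cXY_int _).1, (cXY_int _).2, cXY_aR.1, cXY_aR.2]
  norm_num

lemma SG_neg {π : RR} (hπ : Prime π) : SG π (-1) := by
  apply sy_sgn
  intro h
  apply hπ.not_isUnit
  have h1 : (1 : RR) ∈ sp π := by
    have := (sp π).neg_mem h
    rwa [neg_neg] at this
  exact isUnit_of_dvd_one (Ideal.mem_span_singleton.1 h1)

section
variable {Q P : Finset ℕ} {ϖ : ℕ → RR}

lemma kd (h : Dt Q P ϖ) {i : ℕ × Bool} (hi : i ∈ ix Q P) :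
    ∃ p : ℕ, p.Prime ∧ p % 2 = 1 ∧ (D2 (pfx Q ϖ i) p ∨ D1 (pfx Q ϖ i) p) := by
  rcases h.kind hi with h1 | h1
  · exact ⟨i.1, h1.2.inp.pr, h1.2.inp.odd, Or.inl h1.2⟩
  · exact ⟨i.1, h1.2.pr, h1.2.odd, Or.inr h1.2⟩

/-- an element whose norm is a power of two is a unit modulo `π` -/
lemma SG_two (h : Dt Q P ϖ) {i : ℕ × Bool} (hi : i ∈ ix Q P) {x : RR} {k : ℕ}
    (hx : nR x = 2 ^ k) : SG (pfx Q ϖ i) x := by
  apply sy_sgn
  intro h1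
  obtain ⟨p, hp, hodd, h2⟩ := kd h hi
  have h3 := nR_dvd h1
  rw [hx] at h3
  have h4 : (p : ℤ) ∣ nR (pfx Q ϖ i) := by
    rcases D12_nR h2 with h5 | h5 <;> rw [h5]
    exact dvd_pow_self _ two_ne_zero
  have h5 := h4.trans h3
  have h6 := (Nat.prime_iff_prime_int.1 hp).dvd_of_dvd_pow h5
  have h7 : p ∣ 2 := by exact_mod_cast h6
  have h8 := (Nat.prime_dvd_prime_iff_eq hp Nat.prime_two).1 h7
  omega

lemma sg_b (h : Dt Q P ϖ) {i : ℕ × Bool} (hi : i ∈ ix Q P) : SG (pfx Q ϖ i) (aR - 1) ∧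
    lg (sy (pfx Q ϖ i) (aR - 1)) = kb (pfx Q ϖ) i := by
  obtain ⟨p, -, -, h2⟩ := kd h hi
  exact ⟨SG_two h hi (k := 1) (by rw [nR_aR1, pow_one]), Pool.Agent.L0h61.EV.r2.sy_b _ p h2⟩

lemma sg_t (h : Dt Q P ϖ) {i : ℕ × Bool} (hi : i ∈ ix Q P) : SG (pfx Q ϖ i) 2 ∧
    lg (sy (pfx Q ϖ i) 2) = kl (pfx Q ϖ) i + kb (pfx Q ϖ) i := by
  obtain ⟨p, -, -, h2⟩ := kd h hi
  refine ⟨SG_two h hi (k := 2) ?_, Pool.Agent.L0h61.EV.r2.sy_two _ p h2⟩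
  have h0 : (2 : RR) = ((2 : ℤ) : RR) := by push_cast; rfl
  rw [h0, nR_int]

lemma sg_g (h : Dt Q P ϖ) {i : ℕ × Bool} (hi : i ∈ ix Q P) (s z e : ZMod 2) :
    SG (pfx Q ϖ i) (gg s z e) ∧ lg (sy (pfx Q ϖ i) (gg s z e)) =
      s * kn (pfx Q ϖ) i + z * kb (pfx Q ϖ) i + e * k7 (pfx Q ϖ) i := by
  have hπ := (h.fx.pd i hi).pr
  obtain ⟨a1, a2⟩ := (SG_neg hπ).powv hπ s
  obtain ⟨b1, b2⟩ := (sg_b h hi).1.powv hπ z
  obtain ⟨c1, c2⟩ := SG.powv hπ (sy_mfR h hi).1 e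
  obtain ⟨d1, d2⟩ := a1.mul hπ b1
  obtain ⟨e1, e2⟩ := d1.mul hπ c1
  refine ⟨e1, ?_⟩
  unfold gg
  rw [e2, d2, a2, b2, c2, (sg_b h hi).2]
  rfl

/-- the equations -/
structure Sol (Q P : Finset ℕ) (ϖ : ℕ → RR) (c : RR) (s z e : ZMod 2) (T : Finset (ℕ × Bool)) :
    Prop where
  sub : T ⊆ ix Q P
  out : ∀ j ∈ ix Q P, j ∉ T → s * kn (pfx Q ϖ) j + z * kb (pfx Q ϖ) j + e * k7 (pfx Q ϖ) j +
    ∑ i ∈ T, mr (pfx Q ϖ) i j = 0
  inn : ∀ j ∈ T, s * kn (pfx Q ϖ) j + z * kb (pfx Q ϖ) j + e * k7 (pfx Q ϖ) j +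
    (lg (sy (pfx Q ϖ j) c) + k7 (pfx Q ϖ) j) + ∑ i ∈ ix Q P \ T, mr (pfx Q ϖ) i j = 0

variable {c : RR} {s z e : ZMod 2} {T : Finset (ℕ × Bool)} {D : ℤ}

/-- the local conditions at the primes dividing `D` -/
theorem Sol.lc (h : Dt Q P ϖ) (hS : Sol Q P ϖ c s z e T)
    (hD : (D : RR) = c * ∏ i ∈ ix Q P, pfx Q ϖ i) (hc : ∀ i ∈ ix Q P, SG (pfx Q ϖ i) c)
    {j : ℕ × Bool} (hj : j ∈ ix Q P) : LC (pfx Q ϖ j) D (gg s z e * zT Q ϖ T) := by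
  classical
  have hπ := (h.fx.pd j hj).pr
  obtain ⟨g1, g2⟩ := sg_g h hj s z e
  by_cases hT : j ∈ T
  · right
    have hT' : j ∉ ix Q P \ T := fun h5 => (Finset.mem_sdiff.1 h5).2 hT
    refine ⟨gg s z e * zT Q ϖ (T.erase j), c * zT Q ϖ ((ix Q P).erase j), ?_, ?_, ?_⟩
    · unfold zT
      rw [← Finset.mul_prod_erase _ _ hT]
      ring
    · unfold zT
      rw [hD, ← Finset.mul_prod_erase _ _ hj]
      ring
    · have e1 : zT Q ϖ ((ix Q P).erase j) = zT Q ϖ (ix Q P \ T) * zT Q ϖ (T.erase j) := by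
        unfold zT
        have h6 : (ix Q P).erase j \ T.erase j = ix Q P \ T := by
          ext i
          simp only [Finset.mem_sdiff, Finset.mem_erase]
          constructor
          · rintro ⟨⟨h1, h2⟩, h3⟩
            exact ⟨h2, fun h4 => h3 ⟨h1, h4⟩⟩
          · rintro ⟨h1, h2⟩
            exact ⟨⟨fun h3 => h2 (h3 ▸ hT), h1⟩, fun h3 => h2 h3.2⟩
        rw [← Finset.prod_sdiff (Finset.erase_subset_erase j hS.sub), h6]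
      have e2 : -fR * (c * zT Q ϖ ((ix Q P).erase j) * (gg s z e * zT Q ϖ (T.erase j))) =
          (-fR * c * gg s z e * zT Q ϖ (ix Q P \ T)) * (zT Q ϖ (T.erase j) * zT Q ϖ (T.erase j)) := by
        rw [e1]
        ring
      have a1 := (sy_zT h (U := T.erase j) ((Finset.erase_subset _ _).trans hS.sub) hj
        (Finset.notMem_erase _ _)).1
      have a2 := sy_zT h (U := ix Q P \ T) Finset.sdiff_subset hj hT'
      obtain ⟨b1, b2⟩ := SG.mul hπ (sy_mfR h hj).1 (hc j hj)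
      obtain ⟨c1, c2⟩ := b1.mul hπ g1
      obtain ⟨d1, d2⟩ := c1.mul hπ a2.1
      obtain ⟨e3, e4⟩ := SG.mul hπ a1 a1
      obtain ⟨f1, f2⟩ := d1.mul hπ e3
      rw [e2]
      refine lg_zero f1 ?_
      have h7 := hS.inn j hT
      rw [f2, e4, d2, c2, b2, g2, a2.2]
      have h8 : lg (sy (pfx Q ϖ j) (-fR)) = k7 (pfx Q ϖ) j := rfl
      rw [h8]
      have h9 := Pool.Agent.L0h4.TW.two_self (lg (sy (pfx Q ϖ j) (zT Q ϖ (T.erase j))))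
      linear_combination h7 + h9
  · left
    have a2 := sy_zT h (U := T) hS.sub hj hT
    obtain ⟨b1, b2⟩ := g1.mul hπ a2.1
    refine lg_zero b1 ?_
    rw [b2, g2, a2.2]
    exact hS.out j hj hT

/-- `e7` of a product -/
lemma e7_zT (h : Dt Q P ϖ) {U : Finset (ℕ × Bool)} (hU : U ⊆ ix Q P) :
    (e7 (zT Q ϖ U) = 1 ∨ e7 (zT Q ϖ U) = -1) ∧
    lg (e7 (zT Q ϖ U)) = ∑ i ∈ U, (k7 (pfx Q ϖ) i + kn (pfx Q ϖ) i) := by
  have s8 : ∀ j ∈ U, e7 (pfx Q ϖ j) = 1 ∨ e7 (pfx Q ϖ j) = -1 := by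
    intro j hj
    have h0 := h.ne (Finset.mem_insert_of_mem (hU hj)) (Finset.mem_insert_self _ _)
      (fun h2 => h.ix7 (h2 ▸ (hU hj)))
    rw [pf7_o, h.pf (hU hj)] at h0
    rw [← sy_seven]
    exact sy_sgn h0
  have s9 := sgn_prod (s := U) (f := fun j => e7 (pfx Q ϖ j)) s8
  have s10 : e7 (zT Q ϖ U) = ∏ j ∈ U, e7 (pfx Q ϖ j) := by
    unfold zT
    have e1 : ∀ x, e7 x = sy (-fR) x := fun x => (sy_seven x).symm
    simp only [e1]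
    exact TD.sy_prodX (prime_of_nR (by norm_num) D1_seven.nR) U _
  rw [s10]
  refine ⟨s9.1, ?_⟩
  rw [s9.2]
  refine Finset.sum_congr rfl fun i hi => ?_
  have h1 := (sy_mfR h (hU hi)).2
  rw [h.pf (hU hi)] at h1
  have h2 : k7 (pfx Q ϖ) i = mc (pfx Q ϖ) i + nt (pfx Q ϖ i) := h1
  have h3 : lg (e7 (pfx Q ϖ i)) = mc (pfx Q ϖ) i := rfl
  have h4 : kn (pfx Q ϖ) i = nt (pfx Q ϖ i) := rfl
  rw [h3, h2, h4]
  have h5 := Pool.Agent.L0h4.TW.two_self (nt (pfx Q ϖ i))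
  linear_combination -h5

lemma mrec (h : Dt Q P ϖ) {i j : ℕ × Bool} (hi : i ∈ ix Q P) (hj : j ∈ ix Q P) (hij : i ≠ j) :
    mr (pfx Q ϖ) i j = mr (pfx Q ϖ) j i + kn (pfx Q ϖ) i * kn (pfx Q ϖ) j := by
  have := h.rec7 i (Finset.mem_insert_of_mem hi) j (Finset.mem_insert_of_mem hj) hij
  unfold mm at this
  rw [h.pf hi, h.pf hj] at this
  unfold mr kn
  have h5 := Pool.Agent.L0h4.TW.two_self (lg (sy (pfx Q ϖ i) (pfx Q ϖ j)))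
  linear_combination this - h5

lemma knsum (h : Dt Q P ϖ) : ∑ i ∈ ix Q P, kn (pfx Q ϖ) i = 0 := by
  rw [← h.ntsum]
  refine Finset.sum_congr rfl fun i hi => ?_
  rw [h.pf hi]
  rfl

/-- the product formula -/
theorem Sol.sev (h : Dt Q P ϖ) (hS : Sol Q P ϖ c s z e T) :
    ∑ i ∈ T, (k7 (pfx Q ϖ) i + kn (pfx Q ϖ) i) = z * ∑ i ∈ ix Q P, kb (pfx Q ϖ) i +
      e * ∑ i ∈ ix Q P, k7 (pfx Q ϖ) i + ∑ i ∈ T, lg (sy (pfx Q ϖ i) c) := by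
  classical
  set G : ℕ × Bool → ZMod 2 := fun j => s * kn (pfx Q ϖ) j + z * kb (pfx Q ϖ) j +
    e * k7 (pfx Q ϖ) j with hG
  have s1 : ∑ j ∈ T, G j + ∑ j ∈ T, lg (sy (pfx Q ϖ j) c) + ∑ j ∈ T, k7 (pfx Q ϖ) j +
      ∑ j ∈ T, ∑ i ∈ ix Q P \ T, mr (pfx Q ϖ) i j = 0 := by
    rw [← Finset.sum_add_distrib, ← Finset.sum_add_distrib, ← Finset.sum_add_distrib]
    refine Finset.sum_eq_zero fun j hj => ?_
    have := hS.inn j hj
    rw [hG]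
    linear_combination this
  have s2 : ∑ j ∈ ix Q P \ T, G j + ∑ j ∈ ix Q P \ T, ∑ i ∈ T, mr (pfx Q ϖ) i j = 0 := by
    rw [← Finset.sum_add_distrib]
    refine Finset.sum_eq_zero fun j hj => ?_
    exact hS.out j (Finset.mem_sdiff.1 hj).1 (Finset.mem_sdiff.1 hj).2
  have s3 : ∑ j ∈ T, ∑ i ∈ ix Q P \ T, mr (pfx Q ϖ) i j =
      ∑ j ∈ T, ∑ i ∈ ix Q P \ T, mr (pfx Q ϖ) j i +
        (∑ j ∈ T, kn (pfx Q ϖ) j) * ∑ i ∈ ix Q P \ T, kn (pfx Q ϖ) i := by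
    rw [Finset.sum_mul_sum, ← Finset.sum_add_distrib]
    refine Finset.sum_congr rfl fun j hj => ?_
    rw [← Finset.sum_add_distrib]
    refine Finset.sum_congr rfl fun i hi => ?_
    rw [mrec h (Finset.mem_sdiff.1 hi).1 (hS.sub hj) fun h5 => (Finset.mem_sdiff.1 hi).2 (h5 ▸ hj)]
    ring
  have s4 : ∑ j ∈ T, ∑ i ∈ ix Q P \ T, mr (pfx Q ϖ) j i =
      ∑ j ∈ ix Q P \ T, ∑ i ∈ T, mr (pfx Q ϖ) i j := Finset.sum_comm
  have s5 : ∑ j ∈ ix Q P \ T, kn (pfx Q ϖ) j = ∑ i ∈ T, kn (pfx Q ϖ) i := by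
    have h5 := knsum h
    rw [← Finset.sum_sdiff hS.sub] at h5
    have h6 := Pool.Agent.L0h4.TW.two_self (∑ i ∈ T, kn (pfx Q ϖ) i)
    linear_combination h5 - h6
  have s6 : (∑ i ∈ T, kn (pfx Q ϖ) i) * (∑ i ∈ T, kn (pfx Q ϖ) i) =
      ∑ i ∈ T, kn (pfx Q ϖ) i := by
    rcases zmod2 (∑ i ∈ T, kn (pfx Q ϖ) i) with h5 | h5 <;> rw [h5] <;> rfl
  have s7 : ∑ j ∈ ix Q P \ T, G j + ∑ j ∈ T, G j =
      z * ∑ i ∈ ix Q P, kb (pfx Q ϖ) i + e * ∑ i ∈ ix Q P, k7 (pfx Q ϖ) i := by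
    rw [Finset.sum_sdiff hS.sub, hG, Finset.sum_add_distrib, Finset.sum_add_distrib,
      ← Finset.mul_sum, ← Finset.mul_sum, ← Finset.mul_sum, knsum h]
    ring
  rw [s3, s4, s5, s6] at s1
  rw [← s7, Finset.sum_add_distrib]
  have c1 := Pool.Agent.L0h4.TW.two_self (∑ j ∈ ix Q P \ T, G j)
  have c2 := Pool.Agent.L0h4.TW.two_self (∑ j ∈ T, G j)
  have c3 := Pool.Agent.L0h4.TW.two_self (∑ j ∈ ix Q P \ T, ∑ i ∈ T, mr (pfx Q ϖ) i j)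
  have c4 := Pool.Agent.L0h4.TW.two_self (∑ i ∈ T, lg (sy (pfx Q ϖ i) c))
  linear_combination s1 + s2 - c1 - c2 - c3 - c4

end

end Pool.Agent.L0h4.TE
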