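import Pool.Agent.L0h4.TC.Nsq

/-!
# Local points at the odd primes dividing `7 D`, for all `D`
-/

set_option autoImplicit false
set_option linter.unusedSectionVars false

namespace Pool.Agent.L0h4.TE

open Pool.Agent.Y698 Pool.Agent.Y698.SG Pool.Agent.L0h4.TW Pool.Agent.L0h4.TC
open Pool.Agent.W192.HK
open Pool.Agent.Y279.SG (nR_int dec cXY_cj)

/-- the local condition at a prime element dividing `D` -/
def LC (π : RR) (D : ℤ) (z : RR) : Prop :=
  sy π z = 1 ∨ ∃ z₁ D₁ : RR, z = π * z₁ ∧ (D : RR) = π * D₁ ∧ sy π (-fR * (D₁ * z₁)) = 1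

section
variable {Q P : Finset ℕ} {ϖ : ℕ → RR} {D : ℤ} {z : RR}

/-- the class of `(0, 0)` in terms of `√-7` -/
lemma SR_zero' {L : Type} [Field L] [CharZero L] (h : SR L (-fR * ((D : RR) * z))) :
    SqS L (7 * D * ((cY z : L) / 2)) (-D * ((cX z : L) + (cY z : L) / 2)) := by
  have e1 : -fR * ((D : RR) * z) = ((-1 : ℤ) : RR) * (((D : ℤ) : RR) * (fR * z)) := by
    push_cast
    ring
  rw [e1] at h
  unfold SR at h
  have h20 : (2 : L) ≠ 0 := two_ne_zero
  have a1 := cd_mul (L := L) h20 ((-1 : ℤ) : RR) (((D : ℤ) : RR) * (fR * z))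
  have a2 := cd_mul (L := L) h20 ((D : ℤ) : RR) (fR * z)
  have a3 := cd_mul (L := L) h20 fR z
  have a6 : cc' L fR = 0 ∧ dd' L fR = 1 := by
    unfold cc' dd'
    rw [cXY_fR.1, cXY_fR.2]
    push_cast
    norm_num
  rw [a6.1, a6.2] at a3
  rw [(cd_int (L := L) D).1, (cd_int (L := L) D).2, a3.1, a3.2] at a2
  rw [(cd_int (L := L) (-1)).1, (cd_int (L := L) (-1)).2, a2.1, a2.2] at a1
  rw [a1.1, a1.2] at h
  unfold cc' dd' at h
  push_cast at h
  convert h using 1
  · ring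
  · ring

/-- a square at `7` -/
lemma SR_seven [Fact (Nat.Prime 7)] {x : RR} (h1 : e7 x = 1) : SR ℚ_[7] x := by
  unfold e7 at h1
  have h2 : quadraticChar (ZMod 7) (r7 x) = 1 := by exact_mod_cast h1
  have h0 : r7 x ≠ 0 := by
    intro h0
    rw [h0, quadraticChar_zero] at h2
    exact zero_ne_one h2
  rw [quadraticChar_one_iff_isSquare h0] at h2
  obtain ⟨s, hs⟩ := h2
  obtain ⟨t, rfl⟩ := ZMod.intCast_surjective s
  have h3 : x - ((t : ℤ) : RR) * ((t : ℤ) : RR) ∈ sp fR := by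
    rw [← r7_eq_zero, map_sub, map_mul, hs, map_intCast, sub_self]
  rw [Ideal.mem_span_singleton] at h3
  obtain ⟨k, hk⟩ := h3
  have ht : ¬ ((7 : ℕ) : ℤ) ∣ nR ((t : ℤ) : RR) := by
    rw [nR_int]
    intro h5
    have h6 : Prime ((7 : ℕ) : ℤ) := Nat.prime_iff_prime_int.1 (by norm_num)
    have h7 := h6.dvd_of_dvd_pow h5
    apply h0
    rw [hs, (ZMod.intCast_zmod_eq_zero_iff_dvd t 7).2 h7, mul_zero]
  exact SR_of (p := 7) (by norm_num) (z := x) (t := ((t : ℤ) : RR)) (k := k) (ρ := fR)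
    (by linear_combination hk) ht (Or.inr ⟨rfl, rfl⟩)

theorem loc7a (hD : D ≠ 0) [Fact (Nat.Prime 7)] (h : e7 z = 1) :
    LocZ ℚ_[7] (21 * D) (112 * D ^ 2) ((cX z : ℚ_[7]) + 11 * (cY z : ℚ_[7]))
      ((cY z : ℚ_[7]) / D) := Or.inl (SqS.sqz hD (SR_seven h))

theorem loc7b (hD : D ≠ 0) [Fact (Nat.Prime 7)] {z₁ : RR} (hz : z = -fR * z₁)
    (h : e7 ((D : RR) * z₁) = 1) :
    LocZ ℚ_[7] (21 * D) (112 * D ^ 2) ((cX z : ℚ_[7]) + 11 * (cY z : ℚ_[7]))
      ((cY z : ℚ_[7]) / D) := by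
  right
  left
  refine SqS.sqz0 hD (SR_zero' ?_)
  have e : -fR * ((D : RR) * z) = fR * fR * ((D : RR) * z₁) := by
    rw [hz]
    ring
  rw [e]
  exact (SR.sq (L := ℚ_[7]) fR).mul (SR_seven h)

/-- the inert primes -/
theorem locI {q : ℕ} [Fact q.Prime] (hin : InP q) (hD0 : D ≠ 0) (h : LC (sg q * (q : RR)) D z) :
    LocZ ℚ_[q] (21 * D) (112 * D ^ 2) ((cX z : ℚ_[q]) + 11 * (cY z : ℚ_[q]))
      ((cY z : ℚ_[q]) / D) := by
  classical
  have hsp : sp (sg q * (q : RR)) = sp (q : RR) := sp_sg q _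
  have key : ∀ x : RR, sy (sg q * (q : RR)) x = 1 → SR ℚ_[q] x := by
    intro x hx
    rw [sy_congr hsp] at hx
    have h1 : x ∉ sp (q : RR) := by
      intro h
      unfold sy at hx
      rw [if_pos h] at hx
      exact zero_ne_one hx
    have h3 : IsSquare (Ideal.Quotient.mk (sp (q : RR)) x) := by
      by_contra h
      unfold sy at hx
      rw [if_neg h1, if_neg h] at hx
      norm_num at hx
    obtain ⟨t', ht'⟩ := h3
    obtain ⟨t, rfl⟩ := Ideal.Quotient.mk_surjective t'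
    rw [← map_mul, Ideal.Quotient.eq] at ht'
    have ht : ¬ (q : ℤ) ∣ nR t := by
      rw [← hin.dvd]
      intro h5
      apply h1
      have h6 : x = (x - t * t) + t * t := by ring
      rw [h6]
      exact Ideal.add_mem _ ht' (Ideal.mul_mem_left _ _ h5)
    rw [Ideal.mem_span_singleton] at ht'
    obtain ⟨k, hk⟩ := ht'
    exact SR_of hin.odd (z := x) (t := t) (k := k) (ρ := (q : RR)) (by linear_combination hk) ht
      (Or.inl rfl)
  rcases h with h | ⟨z₁, D₁, hz, hD, h⟩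
  · exact Or.inl (SqS.sqz hD0 (key _ h))
  · right
    left
    refine SqS.sqz0 hD0 (SR_zero' ?_)
    have e : -fR * ((D : RR) * z) = (sg q * (q : RR)) * (sg q * (q : RR)) * (-fR * (D₁ * z₁)) := by
      rw [hz, hD]
      ring
    rw [e]
    exact (SR.sq (L := ℚ_[q]) _).mul (key _ h)

/-- the split primes -/
theorem locS (h : Dt Q P ϖ) {p : ℕ} [hp : Fact p.Prime] (hP : p ∈ P) {D' : ℤ}
    (hDD : D = p * D') (hD'u : ¬ (p : ℤ) ∣ D')
    (h1 : LC (pfx Q ϖ (p, false)) D z) (h2' : LC (pfx Q ϖ (p, true)) D z) :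
    LocZ ℚ_[p] (21 * D) (112 * D ^ 2) ((cX z : ℚ_[p]) + 11 * (cY z : ℚ_[p]))
      ((cY z : ℚ_[p]) / D) := by
  classical
  have hD0 : D ≠ 0 := by
    rintro rfl
    apply hD'u
    have hp0 : (p : ℤ) ≠ 0 := by exact_mod_cast hp.out.ne_zero
    have h3 : D' = 0 := by
      rcases mul_eq_zero.1 hDD.symm with h4 | h4
      · exact absurd h4 hp0
      · exact h4
    rw [h3]
    exact dvd_zero _
  have hD'' : (D : ℚ_[p]) ≠ 0 := by exact_mod_cast hD0
  have h2 := (h.p p hP).odd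
  obtain ⟨A, hA, hB, e1, e2⟩ := exists_A h hP
  have hi : (p, false) ∈ ix Q P := TW.mem_ix.2 (Or.inr (Or.inl ⟨hP, rfl⟩))
  have hj : (p, true) ∈ ix Q P := TW.mem_ix.2 (Or.inr (Or.inr ⟨hP, rfl⟩))
  have pi := (h.fx.pd _ hi).pr
  have pj := (h.fx.pd _ hj).pr
  -- the coordinates in `ℚ_p`
  have hAq : ((A : ℚ_[p])) ^ 2 = (A : ℚ_[p]) - 2 := by
    have := congrArg (fun t : ℤ_[p] => (t : ℚ_[p])) hA
    push_cast at this
    exact this
  have hBq : ((1 - A : ℤ_[p]) : ℚ_[p]) ^ 2 = ((1 - A : ℤ_[p]) : ℚ_[p]) - 2 := by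
    have := congrArg (fun t : ℤ_[p] => (t : ℚ_[p])) hB
    push_cast at this
    push_cast
    exact this
  have hs : (2 * (A : ℚ_[p]) - 1) ^ 2 = -7 := by linear_combination 4 * hAq
  have ez : ∀ x : RR, ((ev A hA x : ℤ_[p]) : ℚ_[p]) = cX x + cY x * (A : ℚ_[p]) := by
    intro x
    rw [ev_apply]
    push_cast
    rfl
  have ez' : ∀ x : RR, ((ev (1 - A) hB x : ℤ_[p]) : ℚ_[p]) = cX x + cY x * (1 - (A : ℚ_[p])) := by
    intro x
    rw [ev_apply]
    push_cast
    rfl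
  have efR : ev A hA fR = 2 * A - 1 ∧ ev (1 - A) hB fR = -(2 * A - 1) := by
    rw [ev_apply, ev_apply, cXY_fR.1, cXY_fR.2]
    push_cast
    exact ⟨by ring, by ring⟩
  have hm7 : (7 : ℚ_[p]) ≠ 0 := by norm_num
  have coe_ne : ∀ m : ℤ_[p], m ≠ 0 → (m : ℚ_[p]) ≠ 0 := fun m hm h => hm (Subtype.ext h)
  set a : ℚ_[p] := (A : ℚ_[p]) with ha
  set x : ℚ_[p] := (cX z : ℚ_[p]) with hx
  set y : ℚ_[p] := (cY z : ℚ_[p]) with hy
  obtain ⟨dv, hdv⟩ := int_unit hD'u
  have hunit7 : ∃ u : ℤ_[p], (7 : ℤ_[p]) * u = 1 := by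
    have h5 : ¬ (p : ℤ) ∣ 7 := by
      intro h6
      have h7 : p ∣ 7 := by exact_mod_cast h6
      exact (h.p p hP).n7 ((Nat.prime_dvd_prime_iff_eq hp.out (by norm_num)).1 h7)
    have := int_unit h5
    push_cast at this
    exact this
  obtain ⟨v7, hv7⟩ := hunit7
  obtain ⟨u4, hu4⟩ := four_unit (p := p) h2
  -- for a unit `c` with inverse `c'`
  have hsq : ∀ c c' : ℤ_[p], c * c' = 1 → ∃ r : ℚ_[p], r ≠ 0 ∧
      (p : ℚ_[p]) ^ 2 + D * c = D * c * (r * r) := by
    intro c c' hc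
    obtain ⟨r, hr⟩ := psq h2 (c' * dv)
    have hr0 : r ≠ 0 := by
      rintro rfl
      rw [mul_zero] at hr
      exact pu_ne _ hr
    refine ⟨r, coe_ne r hr0, ?_⟩
    have h5 : (p : ℤ_[p]) ^ 2 + D * c = D * c * (r * r) := by
      rw [← hr, hDD]
      push_cast
      linear_combination (-(p : ℤ_[p]) ^ 2) * hdv - ((p : ℤ_[p]) ^ 2 * D' * dv) * hc
    have h6 := congrArg (fun t : ℤ_[p] => (t : ℚ_[p])) h5
    push_cast at h6
    exact h6
  have hc2 : ((2 : ℤ_[p]) : ℚ_[p]) = 2 := rfl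
  -- the two conditions
  have ci : (∃ m : ℚ_[p], m ≠ 0 ∧ x + y * a = m * m) ∨
      (∃ n : ℚ_[p], n ≠ 0 ∧ -(D * (2 * a - 1)) = n * n * (x + y * a)) := by
    rcases h1 with h1 | ⟨z₁, D₁, g1, g2, h1⟩
    · left
      obtain ⟨m, hm, hm0⟩ := ev_sy h2 hA pi e1 h1
      refine ⟨m, coe_ne m hm0, ?_⟩
      have h5 := congrArg (fun t : ℤ_[p] => (t : ℚ_[p])) hm
      rw [ez] at h5
      push_cast at h5
      exact h5
    · right
      obtain ⟨m, hm, hm0⟩ := ev_sy h2 hA pi e1 h1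
      have h5 := congrArg (fun t : ℤ_[p] => (t : ℚ_[p])) hm
      have h6 := congrArg (fun t : RR => ((ev A hA t : ℤ_[p]) : ℚ_[p])) g1
      have h7 := congrArg (fun t : RR => ((ev A hA t : ℤ_[p]) : ℚ_[p])) g2
      simp only [map_mul, map_neg, map_intCast, efR.1] at h5 h6 h7
      push_cast at h5 h6 h7
      rw [hc2] at h5
      rw [ez z, ← hx, ← hy] at h6
      have hz0 : (x + y * a) ≠ 0 := by
        intro h8
        have hne : z ≠ 0 := by
          intro h9
          rw [h9] at g1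
          have h10 : z₁ = 0 := by
            rcases mul_eq_zero.1 g1.symm with h11 | h11
            · exact absurd h11 pi.ne_zero
            · exact h11
          rw [h10, mul_zero, mul_zero] at h1
          unfold sy at h1
          rw [if_pos (Ideal.zero_mem _)] at h1
          exact zero_ne_one h1
        have h9 := ev_ne (F := ℚ_[p]) (a := a) hAq hne
        apply h9
        rw [ev_apply]
        exact h8
      set w : ℚ_[p] := ((ev A hA (pfx Q ϖ (p, false)) : ℤ_[p]) : ℚ_[p]) with hw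
      have hw0 : w ≠ 0 := by
        intro h8
        rw [h8, zero_mul] at h6
        exact hz0 h6
      refine ⟨w * m / (x + y * a), div_ne_zero (mul_ne_zero hw0 (coe_ne m hm0)) hz0, ?_⟩
      rw [div_mul_div_comm, div_mul_eq_mul_div, eq_div_iff (mul_ne_zero hz0 hz0)]
      linear_combination (-(2 * a - 1) * (x + y * a) ^ 2) * h7 -
        (2 * a - 1) * w * ((ev A hA D₁ : ℤ_[p]) : ℚ_[p]) * (x + y * a) * h6 +
        w ^ 2 * (x + y * a) * h5
  have cj : (∃ m : ℚ_[p], m ≠ 0 ∧ x + y * (1 - a) = m * m) ∨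
      (∃ n : ℚ_[p], n ≠ 0 ∧ D * (2 * a - 1) = n * n * (x + y * (1 - a))) := by
    rcases h2' with h1 | ⟨z₁, D₁, g1, g2, h1⟩
    · left
      obtain ⟨m, hm, hm0⟩ := ev_sy h2 hB pj e2 h1
      refine ⟨m, coe_ne m hm0, ?_⟩
      have h5 := congrArg (fun t : ℤ_[p] => (t : ℚ_[p])) hm
      rw [ez'] at h5
      push_cast at h5
      exact h5
    · right
      obtain ⟨m, hm, hm0⟩ := ev_sy h2 hB pj e2 h1
      have h5 := congrArg (fun t : ℤ_[p] => (t : ℚ_[p])) hm
      have h6 := congrArg (fun t : RR => ((ev (1 - A) hB t : ℤ_[p]) : ℚ_[p])) g1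
      have h7 := congrArg (fun t : RR => ((ev (1 - A) hB t : ℤ_[p]) : ℚ_[p])) g2
      simp only [map_mul, map_neg, map_intCast, efR.2] at h5 h6 h7
      push_cast at h5 h6 h7
      rw [hc2] at h5
      rw [ez' z, ← hx, ← hy] at h6
      have hz0 : (x + y * (1 - a)) ≠ 0 := by
        intro h8
        have hne : z ≠ 0 := by
          intro h9
          rw [h9] at g1
          have h10 : z₁ = 0 := by
            rcases mul_eq_zero.1 g1.symm with h11 | h11
            · exact absurd h11 pj.ne_zero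
            · exact h11
          rw [h10, mul_zero, mul_zero] at h1
          unfold sy at h1
          rw [if_pos (Ideal.zero_mem _)] at h1
          exact zero_ne_one h1
        have h9 := ev_ne (F := ℚ_[p]) (a := ((1 - A : ℤ_[p]) : ℚ_[p])) hBq hne
        apply h9
        rw [ev_apply]
        push_cast
        exact h8
      set w : ℚ_[p] := ((ev (1 - A) hB (pfx Q ϖ (p, true)) : ℤ_[p]) : ℚ_[p]) with hw
      have hw0 : w ≠ 0 := by
        intro h8
        rw [h8, zero_mul] at h6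
        exact hz0 h6
      refine ⟨w * m / (x + y * (1 - a)), div_ne_zero (mul_ne_zero hw0 (coe_ne m hm0)) hz0, ?_⟩
      rw [div_mul_div_comm, div_mul_eq_mul_div, eq_div_iff (mul_ne_zero hz0 hz0)]
      linear_combination ((2 * a - 1) * (x + y * (1 - a)) ^ 2) * h7 +
        (2 * a - 1) * w * ((ev (1 - A) hB D₁ : ℤ_[p]) : ℚ_[p]) * (x + y * (1 - a)) * h6 +
        w ^ 2 * (x + y * (1 - a)) * h5
  rcases ci with ⟨m, hm0, hm⟩ | ⟨m, hm0, hm⟩ <;> rcases cj with ⟨n, hn0, hn⟩ | ⟨n, hn0, hn⟩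
  · left
    refine SqS.sqz hD0 (sqS_split hs (w₁ := m) (w₂ := n) ?_ ?_)
    · linear_combination hm
    · linear_combination hn
  · right
    right
    obtain ⟨r, hr0, hr⟩ := hsq (2 * A - 1) (-(2 * A - 1) * v7) (by
      linear_combination -4 * v7 * hA + hv7)
    obtain ⟨r', hr0', hr'⟩ := hsq ((2 * A - 1) * (1 - A) ^ 4)
      (-(2 * A - 1) * v7 * (2 * u4 * A) ^ 4) (by
        have k1 : (1 - A) * (2 * u4 * A) = 1 := by linear_combination -2 * u4 * hA + hu4
        have k2 : (1 - A) ^ 4 * (2 * u4 * A) ^ 4 = 1 := by rw [← mul_pow, k1, one_pow]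
        linear_combination (-(2 * A - 1) * (2 * A - 1) * v7) * k2 - 4 * v7 * hA + hv7)
    push_cast at hr hr'
    rw [hc2] at hr hr'
    refine mix hD0 (t := (p : ℚ_[p])) (m := m) (n := n) (r := r) (r' := r') hAq
      (by exact_mod_cast hp.out.ne_zero) hm0 hr0 hr0' hm hn ?_ ?_
    · exact hr
    · linear_combination hr'
  · right
    right
    obtain ⟨r, hr0, hr⟩ := hsq (2 * (1 - A) - 1) (-(2 * (1 - A) - 1) * v7) (by
      linear_combination -4 * v7 * hA + hv7)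
    obtain ⟨r', hr0', hr'⟩ := hsq ((2 * (1 - A) - 1) * (1 - (1 - A)) ^ 4)
      (-(2 * (1 - A) - 1) * v7 * (2 * u4 * (1 - A)) ^ 4) (by
        have k1 : (1 - (1 - A)) * (2 * u4 * (1 - A)) = 1 := by linear_combination -2 * u4 * hA + hu4
        have k2 : (1 - (1 - A)) ^ 4 * (2 * u4 * (1 - A)) ^ 4 = 1 := by rw [← mul_pow, k1, one_pow]
        linear_combination (-(2 * (1 - A) - 1) * (2 * (1 - A) - 1) * v7) * k2 - 4 * v7 * hA + hv7)
    push_cast at hr hr'
    rw [hc2] at hr hr'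
    refine mix hD0 (t := (p : ℚ_[p])) (a := 1 - a) (m := n) (n := m) (r := r) (r' := r')
      (by linear_combination hAq) (by exact_mod_cast hp.out.ne_zero) hn0 hr0 hr0' hn ?_ ?_ ?_
    · linear_combination hm
    · exact hr
    · linear_combination hr'
  · right
    left
    refine SqS.sqz0 hD0 (sqS_split hs (w₁ := m * (x + y * a)) (w₂ := n * (x + y * (1 - a))) ?_ ?_)
    · linear_combination (x + y * a) * hm + (D * y / 2 : ℚ_[p]) * hs
    · linear_combination (x + y * (1 - a)) * hn + (D * y / 2 : ℚ_[p]) * hs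

end

end Pool.Agent.L0h4.TE
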