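import Pool.Agent.L0h4.TE.Ker

/-!
# Solutions of the two linear systems
-/

set_option autoImplicit false
set_option linter.unusedSectionVars false

namespace Pool.Agent.L0h4.TE

open Pool.Agent.Y698 Pool.Agent.Y698.SG Pool.Agent.L0h4.TW Pool.Agent.L0h4.TC
open Pool.Agent.W192.HK
open Pool.Agent.Y279.SG (nR_int dec cXY_cj nR_dvd)
open Pool.Agent.L0h23.ED (lam lab S_R2 kn kl kb k7 Sys3 SysE NS3 NSE)

section
variable {ι : Type} [DecidableEq ι]

lemma sumT {I : Finset ι} {x : ι → ZMod 2} (a : ι → ZMod 2) :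
    ∑ i ∈ I, a i * x i = ∑ i ∈ I.filter (fun i => x i = 1), a i := by
  rw [Finset.sum_filter]
  refine Finset.sum_congr rfl fun i _ => ?_
  rcases zmod2 (x i) with h | h
  · rw [h, mul_zero, if_neg zero_ne_one]
  · rw [h, mul_one, if_pos rfl]

/-- the equation at `j` -/
lemma eqT {I : Finset ι} {m : ι → ι → ZMod 2} {x : ι → ZMod 2} {j : ι} (hj : j ∈ I)
    {G K : ZMod 2} (h : G + ∑ i ∈ I.erase j, m i j * x i + x j * (K + ∑ i ∈ I.erase j, m i j) = 0) :
    (j ∉ I.filter (fun i => x i = 1) → G + ∑ i ∈ I.filter (fun i => x i = 1), m i j = 0) ∧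
    (j ∈ I.filter (fun i => x i = 1) →
      G + K + ∑ i ∈ I \ I.filter (fun i => x i = 1), m i j = 0) := by
  constructor
  · intro h1
    have hx : x j = 0 := by
      rcases zmod2 (x j) with h2 | h2
      · exact h2
      · exact absurd (Finset.mem_filter.2 ⟨hj, h2⟩) h1
    rw [hx, zero_mul, add_zero] at h
    rw [← sumT (I := I) (x := x) (fun i => m i j), ← Finset.add_sum_erase _ _ hj, hx, mul_zero,
      zero_add]
    exact h
  · intro h1
    have hx : x j = 1 := (Finset.mem_filter.1 h1).2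
    rw [hx, one_mul] at h
    have e1 : ∑ i ∈ I.erase j, m i j * x i + ∑ i ∈ I.erase j, m i j =
        ∑ i ∈ I.erase j, m i j * (x i + 1) := by
      rw [← Finset.sum_add_distrib]
      refine Finset.sum_congr rfl fun i _ => ?_
      ring
    have e2 : ∑ i ∈ I \ I.filter (fun i => x i = 1), m i j =
        ∑ i ∈ I.erase j, m i j * (x i + 1) := by
      have e3 : I \ I.filter (fun i => x i = 1) = (I.erase j).filter (fun i => x i + 1 = 1) := by
        ext i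
        simp only [Finset.mem_sdiff, Finset.mem_filter, Finset.mem_erase]
        constructor
        · rintro ⟨h2, h3⟩
          refine ⟨⟨fun h4 => h3 ⟨h2, h4 ▸ hx⟩, h2⟩, ?_⟩
          rcases zmod2 (x i) with h4 | h4
          · rw [h4, zero_add]
          · exact absurd ⟨h2, h4⟩ h3
        · rintro ⟨⟨h2, h3⟩, h4⟩
          refine ⟨h3, fun h5 => ?_⟩
          rw [h5.2] at h4
          revert h4
          decide
      rw [e3, ← sumT (I := I.erase j) (x := fun i => x i + 1) (fun i => m i j)]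
    rw [e2, ← e1]
    linear_combination h

end

section
variable {Q P : Finset ℕ} {ϖ : ℕ → RR}

lemma N1_pfx (h : Dt Q P ϖ) {i : ℕ × Bool} (hi : i ∈ ix Q P) : N1 (pfx Q ϖ i) := (h.fx.pd i hi).n1

lemma e6_zT (h : Dt Q P ϖ) {U : Finset (ℕ × Bool)} (hU : U ⊆ ix Q P) :
    e6 (zT Q ϖ U) = f5 (∑ i ∈ U, kl (pfx Q ϖ) i) := by
  unfold zT
  rw [map_prod, f5_sum]
  exact Finset.prod_congr rfl fun i hi => lam_e6 (N1_pfx h (hU hi))

lemma e3_zT (h : Dt Q P ϖ) {U : Finset (ℕ × Bool)} (hU : U ⊆ ix Q P) :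
    e3 (zT Q ϖ U) = f1 (∑ i ∈ U, kn (pfx Q ϖ) i) * f5 (∑ i ∈ U, kb (pfx Q ϖ) i) := by
  unfold zT
  rw [map_prod, f1_sum, f5_sum, ← Finset.prod_mul_distrib]
  refine Finset.prod_congr rfl fun i hi => ?_
  obtain ⟨p, -, -, hp⟩ := kd h (hU hi)
  exact lab_e3 Pool.Agent.L0h61.EV.r2 hp

/-- the product of the prime elements, the second case -/
theorem prod3 (h : Dt Q P ϖ) (h4 : (∏ q ∈ Q ∪ P, q) % 4 = 3) :
    ∏ i ∈ ix Q P, pfx Q ϖ i = -((∏ q ∈ Q ∪ P, q : ℕ) : RR) := by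
  have h1 : ∏ q ∈ Q ∪ P, sgz q = -1 := by
    rcases sgz_prod (S := Q ∪ P) (fun q hq => by
      rcases Finset.mem_union.1 hq with h2 | h2
      · exact (h.q q h2).odd
      · exact (h.p q h2).odd) with h2 | h2
    · exfalso
      have := h2.2
      omega
    · exact h2.1
  rw [TW.prod_ix h.dis]
  have e1 : ∏ q ∈ Q, pfx Q ϖ (q, false) = ∏ q ∈ Q, (((sgz q : ℤ) : RR) * (q : RR)) :=
    Finset.prod_congr rfl fun q hq => by rw [pfx_Q hq, sg_coe]
  have e2 : ∏ p ∈ P, (pfx Q ϖ (p, false) * pfx Q ϖ (p, true)) =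
      ∏ p ∈ P, (((sgz p : ℤ) : RR) * (p : RR)) := by
    refine Finset.prod_congr rfl fun p hp => ?_
    rw [h.pfx_f hp, h.pfx_t hp, sg_coe]
    have h3 := mul_cj (ϖ p)
    rw [(h.cho p hp).1] at h3
    push_cast at h3
    linear_combination ((sgz p : ℤ) : RR) * h3
  rw [e1, e2, ← Finset.prod_union h.dis, Finset.prod_mul_distrib]
  have e3 : ∏ i ∈ Q ∪ P, ((sgz i : ℤ) : RR) = ((∏ q ∈ Q ∪ P, sgz q : ℤ) : RR) := by
    push_cast
    rfl
  rw [e3, h1]
  push_cast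
  ring

lemma par4 (h : Dt Q P ϖ) : (∏ q ∈ Q ∪ P, q) % 4 = 1 ∨ (∏ q ∈ Q ∪ P, q) % 4 = 3 := by
  rcases sgz_prod (S := Q ∪ P) (fun q hq => by
      rcases Finset.mem_union.1 hq with h2 | h2
      · exact (h.q q h2).odd
      · exact (h.p q h2).odd) with h2 | h2
  · exact Or.inl h2.2
  · exact Or.inr h2.2

/-- the total sums -/
theorem tot (h : Dt Q P ϖ) :
    (∑ i ∈ ix Q P, kl (pfx Q ϖ) i = if (∏ q ∈ Q ∪ P, q) % 8 = 3 ∨ (∏ q ∈ Q ∪ P, q) % 8 = 5
      then 1 else 0) ∧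
    (∑ i ∈ ix Q P, kb (pfx Q ϖ) i = if (∏ q ∈ Q ∪ P, q) % 8 = 3 ∨ (∏ q ∈ Q ∪ P, q) % 8 = 5
      then 1 else 0) := by
  have a1 := e6_zT h (Finset.Subset.refl (ix Q P))
  have a2 := e3_zT h (Finset.Subset.refl (ix Q P))
  rw [knsum h] at a2
  have f0 : f1 0 = 1 := rfl
  rw [f0, one_mul] at a2
  set M : ℕ := ∏ q ∈ Q ∪ P, q with hM
  rcases par4 h with h4 | h4
  · have h5 : zT Q ϖ (ix Q P) = ((M : ℕ) : RR) := h.prod_pfx h4
    rw [h5, map_natCast] at a1 a2
    have h8 : M % 8 = 1 ∨ M % 8 = 5 := by omega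
    have h9 : (M : ZMod 8) = ((M % 8 : ℕ) : ZMod 8) := by rw [ZMod.natCast_mod]
    rw [h9] at a1 a2
    rcases h8 with h8 | h8
    · rw [h8] at a1 a2 ⊢
      rw [if_neg (by norm_num)]
      refine ⟨f5_inj (a1.symm.trans (by decide)), f5_inj (a2.symm.trans (by decide))⟩
    · rw [h8] at a1 a2 ⊢
      rw [if_pos (by norm_num)]
      refine ⟨f5_inj (a1.symm.trans (by decide)), f5_inj (a2.symm.trans (by decide))⟩
  · have h5 : zT Q ϖ (ix Q P) = -((M : ℕ) : RR) := prod3 h h4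
    rw [h5, map_neg, map_natCast] at a1 a2
    have h8 : M % 8 = 3 ∨ M % 8 = 7 := by omega
    have h9 : (M : ZMod 8) = ((M % 8 : ℕ) : ZMod 8) := by rw [ZMod.natCast_mod]
    rw [h9] at a1 a2
    rcases h8 with h8 | h8
    · rw [h8] at a1 a2 ⊢
      rw [if_pos (by norm_num)]
      refine ⟨f5_inj (a1.symm.trans (by decide)), f5_inj (a2.symm.trans (by decide))⟩
    · rw [h8] at a1 a2 ⊢
      rw [if_neg (by norm_num)]
      refine ⟨f5_inj (a1.symm.trans (by decide)), f5_inj (a2.symm.trans (by decide))⟩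

/-- a nontrivial solution for `D ≡ 3 mod 4` -/
structure Sol3 (Q P : Finset ℕ) (ϖ : ℕ → RR) (L s z : ZMod 2) (T : Finset (ℕ × Bool)) : Prop where
  sol : Sol Q P ϖ (-1) s z 0 T
  eq1 : z + ∑ i ∈ T, kl (pfx Q ϖ) i = L * s
  eq2 : s + L * z + ∑ i ∈ T, kn (pfx Q ϖ) i = 0
  nt : z = 1 ∨ T.Nonempty

/-- a nontrivial solution for `D = 2 M` -/
structure SolE (Q P : Finset ℕ) (ϖ : ℕ → RR) (nb w z e : ZMod 2) (T : Finset (ℕ × Bool)) :
    Prop where
  sol : Sol Q P ϖ (2 * (-1) ^ nb.val) 0 z e T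
  eq1 : z + e + ∑ i ∈ T, kl (pfx Q ϖ) i = 0
  eq2 : w * z + e * (1 + nb) + ∑ i ∈ T, (kb (pfx Q ϖ) i + nb * kn (pfx Q ϖ) i) = 0
  nt : z = 1 ∨ e = 1 ∨ T.Nonempty

theorem exists_Sol3 (h : Dt Q P ϖ) {D : ℕ} (hD : D = ∏ q ∈ Q ∪ P, q) (h4 : D % 4 = 3)
    (hns : ¬ NS3 Q P ϖ D) :
    ∃ s z T, Sol3 Q P ϖ (if D % 8 = 7 then 1 else 0) s z T := by
  classical
  unfold NS3 Sys3 at hns
  push Not at hns
  obtain ⟨s₀, z, e, x₀, q1, q2, q3, q4⟩ := hns
  have h2 : ∀ t : ZMod 2, t + t = 0 := Pool.Agent.L0h4.TW.two_self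
  obtain ⟨tl, tb⟩ := tot h
  rw [← hD] at tl tb
  set L : ZMod 2 := if D % 8 = 7 then 1 else 0 with hL
  have tl' : ∑ i ∈ ix Q P, kl (pfx Q ϖ) i = 1 + L := by
    rw [tl, hL]
    have h8 : D % 8 = 3 ∨ D % 8 = 7 := by omega
    rcases h8 with h8 | h8 <;> rw [h8]
    · rw [if_pos (by norm_num), if_neg (by norm_num), add_zero]
    · rw [if_neg (by norm_num), if_pos rfl]
      rfl
  -- reduction to `e = 0`
  obtain ⟨s, x, c1, c2, c3, c4⟩ : ∃ (s : ZMod 2) (x : ℕ × Bool → ZMod 2),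
      z + ∑ i ∈ ix Q P, kl (pfx Q ϖ) i * x i = L * s ∧
      s + L * z + ∑ i ∈ ix Q P, kn (pfx Q ϖ) i * x i = 0 ∧
      (∀ j ∈ ix Q P, (s * kn (pfx Q ϖ) j + z * kb (pfx Q ϖ) j + 0 * k7 (pfx Q ϖ) j) +
        ∑ i ∈ (ix Q P).erase j, mr (pfx Q ϖ) i j * x i +
        x j * ((kn (pfx Q ϖ) j + k7 (pfx Q ϖ) j) + ∑ i ∈ (ix Q P).erase j, mr (pfx Q ϖ) i j) = 0) ∧
      ¬ (s = 0 ∧ z = 0 ∧ ∀ i ∈ ix Q P, x i = 0) := by
    rcases zmod2 e with rfl | rfl
    · refine ⟨s₀, x₀, ?_, ?_, ?_, ?_⟩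
      · linear_combination q1
      · linear_combination q2
      · intro j hj
        linear_combination q3 j hj
      · rintro ⟨t1, t2, t3⟩
        obtain ⟨i, hi, hi'⟩ := q4.1 t1 t2 rfl
        exact hi' (t3 i hi)
    · refine ⟨s₀ + 1, fun i => x₀ i + 1, ?_, ?_, ?_, ?_⟩
      · have e1 : ∑ i ∈ ix Q P, kl (pfx Q ϖ) i * (x₀ i + 1) =
            ∑ i ∈ ix Q P, kl (pfx Q ϖ) i * x₀ i + (1 + L) := by
          rw [← tl', ← Finset.sum_add_distrib]
          exact Finset.sum_congr rfl fun i _ => by ring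
        rw [e1]
        linear_combination q1
      · have e1 : ∑ i ∈ ix Q P, kn (pfx Q ϖ) i * (x₀ i + 1) =
            ∑ i ∈ ix Q P, kn (pfx Q ϖ) i * x₀ i + 0 := by
          rw [← knsum h, ← Finset.sum_add_distrib]
          exact Finset.sum_congr rfl fun i _ => by ring
        rw [e1]
        linear_combination q2
      · intro j hj
        have e1 : ∑ i ∈ (ix Q P).erase j, mr (pfx Q ϖ) i j * (x₀ i + 1) =
            ∑ i ∈ (ix Q P).erase j, mr (pfx Q ϖ) i j * x₀ i +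
              ∑ i ∈ (ix Q P).erase j, mr (pfx Q ϖ) i j := by
          rw [← Finset.sum_add_distrib]
          exact Finset.sum_congr rfl fun i _ => by ring
        rw [e1]
        linear_combination q3 j hj + h2 (kn (pfx Q ϖ) j) +
          h2 (∑ i ∈ (ix Q P).erase j, mr (pfx Q ϖ) i j)
      · rintro ⟨t1, t2, t3⟩
        have t4 : s₀ = 1 := by
          rcases zmod2 s₀ with h5 | h5
          · rw [h5] at t1
            exact absurd t1 (by decide)
          · exact h5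
        obtain ⟨i, hi, hi'⟩ := q4.2 t4 t2 rfl
        apply hi'
        have : x₀ i + 1 = 0 := t3 i hi
        rcases zmod2 (x₀ i) with h5 | h5
        · rw [h5] at this
          exact absurd this (by decide)
        · exact h5
  refine ⟨s, z, (ix Q P).filter (fun i => x i = 1), ⟨Finset.filter_subset _ _, ?_, ?_⟩, ?_, ?_, ?_⟩
  · intro j hj hjT
    exact (eqT hj (c3 j hj)).1 hjT
  · intro j hjT
    have hj := Finset.filter_subset _ _ hjT
    have h5 := (eqT hj (c3 j hj)).2 hjT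
    have h6 : lg (sy (pfx Q ϖ j) (-1)) = kn (pfx Q ϖ) j := rfl
    rw [h6]
    exact h5
  · rw [← sumT]
    exact c1
  · rw [← sumT]
    exact c2
  · by_contra h5
    push Not at h5
    obtain ⟨h5, h6⟩ := h5
    have h7 : z = 0 := by
      rcases zmod2 z with h7 | h7
      · exact h7
      · exact absurd h7 h5
    have h8 : ∀ i ∈ ix Q P, x i = 0 := by
      intro i hi
      rcases zmod2 (x i) with h8 | h8
      · exact h8
      · exact absurd (Finset.mem_filter.2 ⟨hi, h8⟩) (by rw [h6]; exact Finset.notMem_empty i)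
    refine c4 ⟨?_, h7, h8⟩
    rw [h7, Finset.sum_eq_zero (fun i hi => by rw [h8 i hi, mul_zero]), mul_zero, add_zero,
      add_zero] at c2
    exact c2

theorem exists_SolE (h : Dt Q P ϖ) {M : ℕ} (hns : ¬ NSE Q P ϖ M) :
    ∃ z e T, SolE Q P ϖ (if M % 4 = 3 then 1 else 0) (if M % 8 = 3 ∨ M % 8 = 5 then 1 else 0)
      z e T := by
  classical
  unfold NSE SysE at hns
  push Not at hns
  obtain ⟨z, e, x, q1, q2, q3, q4⟩ := hns
  set nb : ZMod 2 := if M % 4 = 3 then 1 else 0 with hnb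
  refine ⟨z, e, (ix Q P).filter (fun i => x i = 1), ⟨Finset.filter_subset _ _, ?_, ?_⟩, ?_, ?_, ?_⟩
  · intro j hj hjT
    have h5 := (eqT (G := z * kb (pfx Q ϖ) j + e * k7 (pfx Q ϖ) j) hj (q3 j hj)).1 hjT
    linear_combination h5
  · intro j hjT
    have hj := Finset.filter_subset _ _ hjT
    have hπ := (h.fx.pd j hj).pr
    have h5 := (eqT (G := z * kb (pfx Q ϖ) j + e * k7 (pfx Q ϖ) j) hj (q3 j hj)).2 hjT
    have h6 : lg (sy (pfx Q ϖ j) (2 * (-1) ^ nb.val)) =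
        kl (pfx Q ϖ) j + kb (pfx Q ϖ) j + nb * kn (pfx Q ϖ) j := by
      obtain ⟨a1, a2⟩ := sg_t h hj
      obtain ⟨b1, b2⟩ := (SG_neg hπ).powv hπ nb
      rw [(a1.mul hπ b1).2, a2, b2]
      rfl
    rw [h6]
    linear_combination h5
  · rw [← sumT]
    exact q1
  · rw [← sumT (I := ix Q P) (x := x) (fun i => kb (pfx Q ϖ) i + nb * kn (pfx Q ϖ) i)]
    exact q2
  · by_contra h5
    push Not at h5
    obtain ⟨h5, h5', h6⟩ := h5
    have h7 : z = 0 := by
      rcases zmod2 z with h7 | h7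
      · exact h7
      · exact absurd h7 h5
    have h7' : e = 0 := by
      rcases zmod2 e with h7 | h7
      · exact h7
      · exact absurd h7 h5'
    obtain ⟨i, hi, hi'⟩ := q4 h7 h7'
    rcases zmod2 (x i) with h8 | h8
    · exact hi' h8
    · exact absurd (Finset.mem_filter.2 ⟨hi, h8⟩) (by rw [h6]; exact Finset.notMem_empty i)

end

end Pool.Agent.L0h4.TE
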