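import Pool.Agent.L0h4.TE.Loc
import Pool.Agent.L0h98.BSD.TwoPrime
import Pool.Agent.L0h23.ED.Stm

/-!
# The elements of `ℤ[α]` in `ℤ_2`
-/

set_option autoImplicit false
set_option linter.unusedSectionVars false

namespace Pool.Agent.L0h4.TE

open Pool.Agent.Y698 Pool.Agent.Y698.SG Pool.Agent.L0h4.TW Pool.Agent.L0h4.TC
open Pool.Agent.W192.HK
open Pool.Agent.Y279.SG (nR_int dec cXY_cj)
open Pool.Agent.L0h23.ED (lam lab S_R2)

/-! ### modulo eight -/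

lemma six8 : (6 : ZMod 8) ^ 2 = 6 - 2 := by decide
lemma three8 : (3 : ZMod 8) ^ 2 = 3 - 2 := by decide

/-- the image modulo `𝔭³` -/
noncomputable def e6 : RR →+* ZMod 8 := ev 6 six8
/-- the image modulo `𝔭̄³` -/
noncomputable def e3 : RR →+* ZMod 8 := ev 3 three8

def f5 (t : ZMod 2) : ZMod 8 := if t = 0 then 1 else 5
def f1 (t : ZMod 2) : ZMod 8 := if t = 0 then 1 else -1

lemma f5_add (a b : ZMod 2) : f5 (a + b) = f5 a * f5 b := by revert a b; decide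
lemma f1_add (a b : ZMod 2) : f1 (a + b) = f1 a * f1 b := by revert a b; decide
lemma f5_inj {a b : ZMod 2} (h : f5 a = f5 b) : a = b := by revert a b; decide

lemma f5_sum {κ : Type*} (s : Finset κ) (f : κ → ZMod 2) : f5 (∑ i ∈ s, f i) = ∏ i ∈ s, f5 (f i) := by
  classical
  induction s using Finset.induction_on with
  | empty => rw [Finset.sum_empty, Finset.prod_empty]; rfl
  | insert i s hi ih => rw [Finset.sum_insert hi, Finset.prod_insert hi, f5_add, ih]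

lemma f1_sum {κ : Type*} (s : Finset κ) (f : κ → ZMod 2) : f1 (∑ i ∈ s, f i) = ∏ i ∈ s, f1 (f i) := by
  classical
  induction s using Finset.induction_on with
  | empty => rw [Finset.sum_empty, Finset.prod_empty]; rfl
  | insert i s hi ih => rw [Finset.sum_insert hi, Finset.prod_insert hi, f1_add, ih]

lemma e6_int (n : ℤ) : e6 (n : RR) = (n : ZMod 8) := map_intCast e6 n
lemma e3_int (n : ℤ) : e3 (n : RR) = (n : ZMod 8) := map_intCast e3 n
lemma e6_aR : e6 aR = 6 := ev_aR _ _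
lemma e3_aR : e3 aR = 3 := ev_aR _ _

lemma dvdA3 {y : RR} : aR ^ 3 ∣ y ↔ e6 y = 0 := by
  constructor
  · rintro ⟨w, rfl⟩
    rw [map_mul, map_pow, e6_aR]
    have : (6 : ZMod 8) ^ 3 = 0 := by decide
    rw [this, zero_mul]
  · intro h
    have h1 : (((cX y + 6 * cY y : ℤ)) : ZMod 8) = 0 := by
      have h2 : e6 y = (cX y : ZMod 8) + (cY y : ZMod 8) * 6 := ev_apply _ _ y
      rw [h] at h2
      push_cast
      rw [h2]
      ring
    rw [ZMod.intCast_zmod_eq_zero_iff_dvd] at h1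
    obtain ⟨k, hk⟩ := h1
    have hd := dec y
    set X := cX y
    set Y := cY y
    have hk' : ((X : ℤ) : RR) + 6 * (Y : RR) = 8 * (k : RR) := by
      have := congrArg (fun t : ℤ => (t : RR)) hk
      push_cast at this
      exact this
    refine ⟨(2 * (Y : RR) - 3 * k) + ((k : RR) - Y) * aR, ?_⟩
    linear_combination hd + hk' - ((2 * (Y : RR) - 3 * k) * (aR + 1) +
      ((k : RR) - Y) * (aR ^ 2 + aR - 1)) * aR_sq

lemma dvdB3 {y : RR} : (1 - aR) ^ 3 ∣ y ↔ e3 y = 0 := by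
  constructor
  · rintro ⟨w, rfl⟩
    rw [map_mul, map_pow, map_sub, map_one, e3_aR]
    have : (1 - 3 : ZMod 8) ^ 3 = 0 := by decide
    rw [this, zero_mul]
  · intro h
    have h1 : (((cX y + 3 * cY y : ℤ)) : ZMod 8) = 0 := by
      have h2 : e3 y = (cX y : ZMod 8) + (cY y : ZMod 8) * 3 := ev_apply _ _ y
      rw [h] at h2
      push_cast
      rw [h2]
      ring
    rw [ZMod.intCast_zmod_eq_zero_iff_dvd] at h1
    obtain ⟨k, hk⟩ := h1
    have hd := dec y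
    set X := cX y
    set Y := cY y
    have hk' : ((X : ℤ) : RR) + 3 * (Y : RR) = 8 * (k : RR) := by
      have := congrArg (fun t : ℤ => (t : RR)) hk
      push_cast at this
      exact this
    refine ⟨((Y : RR) - 2 * k) + (-(k : RR)) * aR, ?_⟩
    linear_combination hd + hk' - ((2 - aR) * (((Y : RR) - 2 * k) + (-(k : RR)) * aR) -
      (k : RR)) * aR_sq

lemma lam_e6 {x : RR} (h : N1 x) : e6 x = f5 (lam x) := by
  obtain ⟨u, hu⟩ := h
  have h1 : e6 x = 1 + 4 * e6 u := by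
    rw [hu, map_add, map_one, map_mul, map_pow, e6_aR]
    have : (6 : ZMod 8) ^ 2 = 4 := by decide
    rw [this]
  have h2 : aR ^ 3 ∣ x - 1 ↔ e6 x = 1 := by
    rw [dvdA3, map_sub, map_one, sub_eq_zero]
  unfold lam
  by_cases h3 : aR ^ 3 ∣ x - 1
  · rw [if_pos h3, h2.1 h3]
    rfl
  · rw [if_neg h3]
    have h4 : e6 x ≠ 1 := fun h5 => h3 (h2.2 h5)
    revert h4
    rw [h1]
    generalize e6 u = t
    revert t
    decide

lemma lab_e3 (r2 : S_R2) {x : RR} {p : ℕ} (hx : D2 x p ∨ D1 x p) :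
    e3 x = f1 (nt x) * f5 (lab x) := by
  have h1 : (1 - aR) ^ 3 ∣ x - 1 ↔ e3 x = 1 := by
    rw [dvdB3, map_sub, map_one, sub_eq_zero]
  have h2 : (1 - aR) ^ 3 ∣ x + 1 ↔ e3 x = -1 := by
    rw [dvdB3, map_add, map_one]
    exact ⟨fun h => eq_neg_of_add_eq_zero_left h, fun h => by rw [h]; decide⟩
  have key : ∀ y : RR, (1 - aR) ^ 2 ∣ y → ∃ t : ZMod 8, e3 y = 4 * t := by
    rintro y ⟨w, rfl⟩
    refine ⟨e3 w, ?_⟩
    rw [map_mul, map_pow, map_sub, map_one, e3_aR]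
    have : (1 - 3 : ZMod 8) ^ 2 = 4 := by decide
    rw [this]
  rcases zmod2 (nt x) with h3 | h3
  · obtain ⟨t, ht⟩ := key _ ((r2.nt0 x p hx).2 h3)
    rw [map_sub, map_one] at ht
    have h4 : e3 x = 1 + 4 * t := by linear_combination ht
    rw [h3]
    unfold lab
    by_cases h5 : (1 - aR) ^ 3 ∣ x - 1 ∨ (1 - aR) ^ 3 ∣ x + 1
    · rw [if_pos h5]
      rw [h1, h2, h4] at h5
      rw [h4]
      revert h5
      clear h4 ht
      revert t
      decide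
    · rw [if_neg h5]
      rw [h1, h2, h4] at h5
      rw [h4]
      revert h5
      clear h4 ht
      revert t
      decide
  · obtain ⟨t, ht⟩ := key _ ((r2.nt1 x p hx).2 h3)
    rw [map_add, map_one] at ht
    have h4 : e3 x = -1 + 4 * t := by linear_combination ht
    rw [h3]
    unfold lab
    by_cases h5 : (1 - aR) ^ 3 ∣ x - 1 ∨ (1 - aR) ^ 3 ∣ x + 1
    · rw [if_pos h5]
      rw [h1, h2, h4] at h5
      rw [h4]
      revert h5
      clear h4 ht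
      revert t
      decide
    · rw [if_neg h5]
      rw [h1, h2, h4] at h5
      rw [h4]
      revert h5
      clear h4 ht
      revert t
      decide

/-! ### the 2-adic numbers -/

lemma exists_root2 : ∃ (A b : ℤ_[2]), A ^ 2 = A - 2 ∧ A = 6 + 32 * b := by
  obtain ⟨t, ht⟩ := Pool.Agent.L0h98.BSD.Two.hens2 (-1)
  have hpr : Prime (2 : ℤ_[2]) := by
    have := PadicInt.prime_p (p := 2)
    exact_mod_cast this
  have h1 : (2 : ℤ_[2]) ∣ (t - 1) * (t + 1) := ⟨-4, by linear_combination ht⟩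
  obtain ⟨r, hr⟩ : ∃ r : ℤ_[2], t = 1 + 2 * r := by
    rcases hpr.dvd_or_dvd h1 with ⟨r, hr⟩ | ⟨r, hr⟩
    · exact ⟨r, by linear_combination hr⟩
    · exact ⟨r - 1, by linear_combination hr⟩
  have h20 : (4 : ℤ_[2]) ≠ 0 := by
    have : (4 : ℤ_[2]) = 2 * 2 := by norm_num
    rw [this]
    exact mul_ne_zero hpr.ne_zero hpr.ne_zero
  have h2 : r ^ 2 + r + 2 = 0 := by
    apply mul_left_cancel₀ h20
    rw [mul_zero]
    rw [hr] at ht
    linear_combination ht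
  -- an even root
  obtain ⟨A, hA, c, hc⟩ : ∃ A : ℤ_[2], A ^ 2 = A - 2 ∧ ∃ c, A = 2 * c := by
    have h3 : (2 : ℤ_[2]) ∣ r * (r + 1) := ⟨-1, by linear_combination h2⟩
    rcases hpr.dvd_or_dvd h3 with ⟨c, hc⟩ | ⟨c, hc⟩
    · exact ⟨-r, by linear_combination h2, -c, by rw [hc]; ring⟩
    · exact ⟨r + 1, by linear_combination h2, c, hc⟩
  -- `(A - 6) (A + 5) = - 32`
  have h4 : IsUnit (A + 5) := by
    by_contra h5
    have h6 : (2 : ℤ_[2]) ∣ A + 5 := by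
      have h7 := (PadicInt.mem_nonunits (p := 2)).1 h5
      rw [PadicInt.norm_lt_one_iff_dvd] at h7
      exact_mod_cast h7
    obtain ⟨d, hd⟩ := h6
    apply hpr.not_isUnit
    refine IsUnit.of_mul_eq_one (d - c - 2) ?_
    linear_combination hc - hd
  obtain ⟨i, hi⟩ := h4.exists_right_inv
  refine ⟨A, -i, hA, ?_⟩
  have h5 : (A - 6) * (A + 5) = -32 := by linear_combination hA
  linear_combination (-(A - 6)) * hi + i * h5

section
variable {A b : ℤ_[2]} (hA : A ^ 2 = A - 2) (hb : A = 6 + 32 * b)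

lemma hB_of (hA : A ^ 2 = A - 2) : (1 - A) ^ 2 = (1 - A) - 2 := by linear_combination hA

include hb in
lemma evA_of {x : RR} {c : ℤ} (h : e6 x = (c : ZMod 8)) : ∃ w : ℤ_[2], ev A hA x = c + 8 * w := by
  have h1 : (((cX x + 6 * cY x - c : ℤ)) : ZMod 8) = 0 := by
    have h2 : e6 x = (cX x : ZMod 8) + (cY x : ZMod 8) * 6 := ev_apply _ _ x
    rw [h] at h2
    push_cast
    rw [h2]
    ring
  rw [ZMod.intCast_zmod_eq_zero_iff_dvd] at h1
  obtain ⟨k, hk⟩ := h1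
  have hk' : ((cX x : ℤ) : ℤ_[2]) + 6 * (cY x : ℤ_[2]) - c = 8 * (k : ℤ_[2]) := by
    have := congrArg (fun t : ℤ => (t : ℤ_[2])) hk
    push_cast at this
    exact this
  refine ⟨k + 4 * b * cY x, ?_⟩
  rw [ev_apply, hb]
  linear_combination hk'

include hb in
lemma evB_of {x : RR} {c : ℤ} (h : e3 x = (c : ZMod 8)) :
    ∃ w : ℤ_[2], ev (1 - A) (hB_of hA) x = c + 8 * w := by
  have h1 : (((cX x + 3 * cY x - c : ℤ)) : ZMod 8) = 0 := by
    have h2 : e3 x = (cX x : ZMod 8) + (cY x : ZMod 8) * 3 := ev_apply _ _ x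
    rw [h] at h2
    push_cast
    rw [h2]
    ring
  rw [ZMod.intCast_zmod_eq_zero_iff_dvd] at h1
  obtain ⟨k, hk⟩ := h1
  have hk' : ((cX x : ℤ) : ℤ_[2]) + 3 * (cY x : ℤ_[2]) - c = 8 * (k : ℤ_[2]) := by
    have := congrArg (fun t : ℤ => (t : ℤ_[2])) hk
    push_cast at this
    exact this
  refine ⟨k - cY x - 4 * b * cY x, ?_⟩
  rw [ev_apply, hb]
  linear_combination hk'

end

lemma sq8 (w : ℤ_[2]) : ∃ m : ℚ_[2], m ≠ 0 ∧ ((1 + 8 * w : ℤ_[2]) : ℚ_[2]) = m ^ 2 := by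
  obtain ⟨t, ht⟩ := Pool.Agent.L0h98.BSD.Two.hens2 w
  refine ⟨(t : ℚ_[2]), ?_, ?_⟩
  · intro h0
    have h1 : t = 0 := Subtype.ext h0
    rw [h1] at ht
    have hpr : Prime (2 : ℤ_[2]) := by
      have := PadicInt.prime_p (p := 2)
      exact_mod_cast this
    apply hpr.not_isUnit
    exact IsUnit.of_mul_eq_one (-4 * w) (by linear_combination ht)
  · rw [← ht]
    push_cast
    rfl

lemma five_unit : ∃ i : ℤ_[2], 5 * i = 1 := by
  have h := int_unit (p := 2) (n := 5) (by norm_num)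
  push_cast at h
  exact h

/-- the class modulo squares -/
def C2 (u : ℚ_[2]) (z n m : ZMod 2) : Prop :=
  ∃ k : ℚ_[2], k ≠ 0 ∧ u = 2 ^ z.val * (-1) ^ n.val * 5 ^ m.val * k ^ 2

lemma pw {b : ℚ_[2]} (hb : b ≠ 0) (a c : ZMod 2) : ∃ k : ℚ_[2], k ≠ 0 ∧
    b ^ a.val * b ^ c.val = b ^ (a + c).val * k ^ 2 := by
  have h2 : ∀ a c : ZMod 2, (a + c).val = a.val + c.val ∨ (a + c).val + 2 = a.val + c.val := by decide
  rcases h2 a c with h | h
  · exact ⟨1, one_ne_zero, by rw [h, pow_add]; ring⟩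
  · exact ⟨b, hb, by rw [← pow_add, ← h, pow_add]⟩

lemma C2.mul {u u' : ℚ_[2]} {z n m z' n' m' : ZMod 2} (h : C2 u z n m) (h' : C2 u' z' n' m') :
    C2 (u * u') (z + z') (n + n') (m + m') := by
  obtain ⟨k, hk, e⟩ := h
  obtain ⟨k', hk', e'⟩ := h'
  obtain ⟨a, ha, ea⟩ := pw (b := 2) two_ne_zero z z'
  obtain ⟨b, hb, eb⟩ := pw (b := -1) (by norm_num) n n'
  obtain ⟨c, hc, ec⟩ := pw (b := 5) (by norm_num) m m'
  refine ⟨k * k' * a * b * c, by positivity, ?_⟩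
  rw [e, e']
  linear_combination ((-1) ^ n.val * (-1) ^ n'.val * 5 ^ m.val * 5 ^ m'.val * k ^ 2 * k' ^ 2) * ea +
    (2 ^ (z + z').val * a ^ 2 * 5 ^ m.val * 5 ^ m'.val * k ^ 2 * k' ^ 2) * eb +
    (2 ^ (z + z').val * a ^ 2 * (-1) ^ (n + n').val * b ^ 2 * k ^ 2 * k' ^ 2) * ec

lemma C2.one : C2 1 0 0 0 := ⟨1, one_ne_zero, by simp⟩

lemma v0 : (0 : ZMod 2).val = 0 := rfl
lemma v1 : (1 : ZMod 2).val = 1 := rfl

lemma C2_int {U w : ℤ_[2]} {n m : ZMod 2} {c : ℤ} (hU : U = c + 8 * w)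
    (hc : (c : ZMod 8) = f1 n * f5 m) : C2 (U : ℚ_[2]) 0 n m := by
  obtain ⟨i5, h5⟩ := five_unit
  have red : ∀ c' : ℤ, (c : ZMod 8) = (c' : ZMod 8) → ∃ w' : ℤ_[2], U = c' + 8 * w' := by
    intro c' h
    rw [ZMod.intCast_eq_intCast_iff_dvd_sub] at h
    obtain ⟨k, hk⟩ := h
    have hk' := congrArg (fun t : ℤ => (t : ℤ_[2])) hk
    push_cast at hk'
    exact ⟨w - k, by rw [hU]; linear_combination -hk'⟩
  rcases zmod2 n with rfl | rfl <;> rcases zmod2 m with rfl | rfl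
  · obtain ⟨w', hw⟩ := red 1 (by rw [hc]; decide)
    obtain ⟨k, hk, e⟩ := sq8 w'
    refine ⟨k, hk, ?_⟩
    rw [v0, pow_zero, pow_zero, pow_zero, ← e, hw]
    push_cast
    ring
  · obtain ⟨w', hw⟩ := red 5 (by rw [hc]; decide)
    obtain ⟨k, hk, e⟩ := sq8 (w' * i5)
    refine ⟨k, hk, ?_⟩
    rw [v0, v1, pow_zero, pow_zero, pow_one, ← e, hw]
    have h6 := congrArg (fun t : ℤ_[2] => (t : ℚ_[2])) h5
    have c5 : ((5 : ℤ_[2]) : ℚ_[2]) = 5 := rfl
    have c8 : ((8 : ℤ_[2]) : ℚ_[2]) = 8 := rfl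
    push_cast at h6 ⊢
    rw [c5] at h6
    rw [c8, c5]
    linear_combination (-8 * (w' : ℚ_[2])) * h6
  · obtain ⟨w', hw⟩ := red (-1) (by rw [hc]; decide)
    obtain ⟨k, hk, e⟩ := sq8 (-w')
    refine ⟨k, hk, ?_⟩
    rw [v0, v1, pow_zero, pow_one, pow_zero, ← e, hw]
    push_cast
    ring
  · obtain ⟨w', hw⟩ := red (-5) (by rw [hc]; decide)
    obtain ⟨k, hk, e⟩ := sq8 (-(w' * i5))
    refine ⟨k, hk, ?_⟩
    rw [v0, v1, pow_zero, pow_one, pow_one, ← e, hw]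
    have h6 := congrArg (fun t : ℤ_[2] => (t : ℚ_[2])) h5
    have c5 : ((5 : ℤ_[2]) : ℚ_[2]) = 5 := rfl
    have c8 : ((8 : ℤ_[2]) : ℚ_[2]) = 8 := rfl
    push_cast at h6 ⊢
    rw [c5] at h6
    rw [c8, c5]
    linear_combination (-8 * (w' : ℚ_[2])) * h6

section
variable {A b : ℤ_[2]} (hA : A ^ 2 = A - 2) (hb : A = 6 + 32 * b)

include hb in
lemma C2_e3 {x : RR} {n m : ZMod 2} (h : e3 x = f1 n * f5 m) :
    C2 ((ev (1 - A) (hB_of hA) x : ℤ_[2]) : ℚ_[2]) 0 n m := by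
  obtain ⟨c, hc⟩ := ZMod.intCast_surjective (e3 x)
  obtain ⟨w, hw⟩ := evB_of hA hb hc.symm
  exact C2_int hw (by rw [hc, h])

include hb in
lemma C2_aR1 : C2 ((ev (1 - A) (hB_of hA) (aR - 1) : ℤ_[2]) : ℚ_[2]) 1 0 1 := by
  obtain ⟨k, hk, e⟩ := C2_int (U := 5 + 8 * (-1 - 2 * b)) (w := -1 - 2 * b) (c := 5) (n := 0) (m := 1)
    (by push_cast; rfl) (by decide)
  refine ⟨k, hk, ?_⟩
  rw [v0, v1, pow_zero, pow_zero, pow_one] at e
  rw [v0, v1, pow_zero, pow_one, pow_one]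
  have h1 : ev (1 - A) (hB_of hA) (aR - 1) = 2 * (5 + 8 * (-1 - 2 * b)) := by
    rw [map_sub, ev_aR, map_one, hb]
    ring
  rw [h1]
  push_cast at e ⊢
  have hc2 : ((2 : ℤ_[2]) : ℚ_[2]) = 2 := rfl
  rw [hc2]
  rw [hc2] at e
  linear_combination 2 * e

include hb in
lemma C2_prod (r2 : S_R2) {κ : Type*} (T : Finset κ) (π : κ → RR)
    (hT : ∀ i ∈ T, ∃ p : ℕ, D2 (π i) p ∨ D1 (π i) p) :
    C2 ((ev (1 - A) (hB_of hA) (∏ i ∈ T, π i) : ℤ_[2]) : ℚ_[2]) 0 (∑ i ∈ T, nt (π i))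
      (∑ i ∈ T, lab (π i)) := by
  apply C2_e3 hA hb
  rw [map_prod, f1_sum, f5_sum, ← Finset.prod_mul_distrib]
  refine Finset.prod_congr rfl fun i hi => ?_
  obtain ⟨p, hp⟩ := hT i hi
  exact lab_e3 r2 hp

end

end Pool.Agent.L0h4.TE
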